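import Pool.Agent.Helper33.CL.Truth
import Pool.Agent.Helper17.CL.Forc

/-!
# Project CL, forcing part: equality of values is forceable (for the definitions of `Forc.lean`)
-/

set_option autoImplicit false

namespace Pool.Agent.Helper33.CL

open ZFSet Pool.Agent.Helper17.CL

theorem vl_eq_val (G : Set ZFSet.{0}) (τ : ZFSet.{0}) : vl G τ = val G τ := by
  induction hr : τ.rank using WellFoundedLT.induction generalizing τ with
  | ind r ih =>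
    ext z
    rw [mem_vl, mem_val]
    constructor
    · rintro ⟨σ, p, hp, h, rfl⟩
      exact ⟨σ, p, hp, h, (ih σ.rank (hr ▸ Pool.Agent.Helper33.CL.rank_fst_lt h) σ rfl).symm⟩
    · rintro ⟨σ, p, hp, h, rfl⟩
      exact ⟨σ, p, hp, h, (ih σ.rank (hr ▸ Pool.Agent.Helper33.CL.rank_fst_lt h) σ rfl).symm⟩

/-- the order as a set of pairs -/
noncomputable def leS (P : ZFSet.{0}) (le : ZFSet.{0} → ZFSet.{0} → Prop) : ZFSet.{0} :=
  ZFSet.sep (fun z => ∃ a ∈ P, ∃ b ∈ P, z = ZFSet.pair a b ∧ le a b) (ZFSet.prod P P)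

theorem pair_mem_leS {P : ZFSet.{0}} {le : ZFSet.{0} → ZFSet.{0} → Prop} {a b : ZFSet.{0}} :
    ZFSet.pair a b ∈ leS P le ↔ a ∈ P ∧ b ∈ P ∧ le a b := by
  rw [leS, ZFSet.mem_sep, ZFSet.pair_mem_prod]
  constructor
  · rintro ⟨_, a', ha, b', hb, h1, h2⟩
    obtain ⟨rfl, rfl⟩ := pair_inj.1 h1
    exact ⟨ha, hb, h2⟩
  · rintro ⟨ha, hb, h2⟩
    exact ⟨⟨ha, hb⟩, a, ha, b, hb, rfl, h2⟩

section

variable {M : Set ZFSet.{0}} {P : ZFSet.{0}} {le : ZFSet.{0} → ZFSet.{0} → Prop}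
variable {G : Set ZFSet.{0}}

theorem leS_mem (F : Forc M P le G) : leS P le ∈ M := by
  have h := F.inner
  have hP := F.mem
  refine (AmF.sep h (α := ZFSet.{0}) (g := fun _ => ZFSet.prod P P)
    (R := fun _ z => ∃ a ∈ P, ∃ b ∈ P, z = ZFSet.pair a b ∧ le a b)
    (AmF.zprod h (AmF.const h P hP) (AmF.const h P hP)) ?_).mem P hP
  refine Am.bex h (AmF.const h P hP) (R := fun (q : ZFSet.{0} × ZFSet.{0}) a =>
    ∃ b ∈ P, q.2 = ZFSet.pair a b ∧ le a b) ?_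
  refine Am.bex h (AmF.const h P hP) (R := fun (q : (ZFSet.{0} × ZFSet.{0}) × ZFSet.{0}) b =>
    q.1.2 = ZFSet.pair q.2 b ∧ le q.2 b) ?_
  have e1 : AmF M (fun q : ((ZFSet.{0} × ZFSet.{0}) × ZFSet.{0}) × ZFSet.{0} => q.1.2) :=
    AF.snd h (AF.fst h (AmF.id h))
  have e2 : AmF M (fun q : ((ZFSet.{0} × ZFSet.{0}) × ZFSet.{0}) × ZFSet.{0} => q.2) :=
    AF.snd h (AmF.id h)
  have e3 : AmF M (fun q : ((ZFSet.{0} × ZFSet.{0}) × ZFSet.{0}) × ZFSet.{0} => q.1.1.2) :=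
    AF.snd h (AF.fst h (AF.fst h (AmF.id h)))
  refine Am.and h (Am.eq h e3 (AmF.pair h e1 e2)) ?_
  exact F.am.comp h (f := fun q : ((ZFSet.{0} × ZFSet.{0}) × ZFSet.{0}) × ZFSet.{0} =>
    (q.1.2, q.2)) (AmF.prod h e1 e2)

theorem isPo_of (F : Forc M P le G) : IsPo P (leS P le) where
  refl p hp := pair_mem_leS.2 ⟨hp, hp, F.refl p hp⟩
  trans p q r h1 h2 := by
    obtain ⟨hp, hq, h1⟩ := pair_mem_leS.1 h1
    obtain ⟨_, hr, h2⟩ := pair_mem_leS.1 h2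
    exact pair_mem_leS.2 ⟨hp, hr, F.trans p hp q hq r hr h1 h2⟩
  fld p q h1 := by
    obtain ⟨hp, hq, _⟩ := pair_mem_leS.1 h1
    exact ⟨hp, hq⟩

theorem isGen_of (F : Forc M P le G) : IsGen M P (leS P le) G where
  sub := F.sub
  up p hp q hq h1 := F.up p hp q hq (pair_mem_leS.1 h1).2.2
  dir p hp q hq := by
    obtain ⟨r, hr, h1, h2⟩ := F.dir p hp q hq
    exact ⟨r, hr, pair_mem_leS.2 ⟨F.sub r hr, F.sub p hp, h1⟩,
      pair_mem_leS.2 ⟨F.sub r hr, F.sub q hq, h2⟩⟩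
  meets D hD hd := by
    obtain ⟨p, hp, hpD⟩ := F.meets (D ∩ P) (F.inner.inter_mem hD F.mem)
      (fun x hx => (ZFSet.mem_inter.1 hx).2) (by
        intro p hp
        obtain ⟨q, hqD, hqP, hqp⟩ := hd p hp
        exact ⟨q, ZFSet.mem_inter.2 ⟨hqD, hqP⟩, (pair_mem_leS.1 hqp).2.2⟩)
    exact ⟨p, hp, (ZFSet.mem_inter.1 hpD).1⟩

/-- Equality of values is forceable. -/
theorem hE (F : Forc M P le G) :
    FR M P le G (fun q : ZFSet.{0} × ZFSet.{0} => vl G q.1 = vl G q.2) := by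
  have h := F.inner
  refine ⟨fun q p => p ∈ P ∧ FE P (leS P le) q.1 q.2 p, ?_, ?_, ?_⟩
  · exact FE_am h F.mem (leS_mem F) (AF.fst h (AF.fst h (AmF.id h)))
      (AF.snd h (AF.fst h (AmF.id h))) (AF.snd h (AmF.id h))
  · rintro q hq p hp r hr hrp ⟨_, h1⟩
    exact ⟨hr, FE_mono (isPo_of F) (pair_mem_leS.2 ⟨hr, hp, hrp⟩) h1⟩
  · rintro ⟨σ, τ⟩ hx
    obtain ⟨hσ, hτ⟩ := (code_mem_prod h).1 hx
    show vl G σ = vl G τ ↔ ∃ p ∈ G, (p ∈ P ∧ FE P (leS P le) σ τ p)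
    rw [vl_eq_val, vl_eq_val, FE_truth h (isGen_of F) F.mem (leS_mem F) (isPo_of F) σ hσ τ hτ]
    constructor
    · rintro ⟨p, hp, h1⟩
      exact ⟨p, hp, F.sub p hp, h1⟩
    · rintro ⟨p, hp, _, h1⟩
      exact ⟨p, hp, h1⟩

end

end Pool.Agent.Helper33.CL
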