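import Pool.Agent.Helper33.CL.Truth

/-!
# Project CL, forcing part: the generic extension is an inner model
-/

set_option autoImplicit false

namespace Pool.Agent.Helper33.CL

open ZFSet Pool.Agent.Helper17.CL

variable {M : Set ZFSet.{0}} {P le : ZFSet.{0}} {G : Set ZFSet.{0}}

/-! ### satisfaction depends on finitely many variables -/

/-- a bound for the free variables -/
def bd : Fml → ℕ
  | .mem i j => max i j + 1
  | .eq i j => max i j + 1
  | .nand φ ψ => max (bd φ) (bd ψ)
  | .all φ => bd φ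

theorem sat_congr (u : Set ZFSet.{0}) (φ : Fml) : ∀ (v w : ℕ → ZFSet.{0}),
    (∀ i < bd φ, v i = w i) → (Sat u φ v ↔ Sat u φ w) := by
  induction φ with
  | mem i j =>
    intro v w hvw
    have h1 : v i = w i := hvw i (by simp only [bd]; omega)
    have h2 : v j = w j := hvw j (by simp only [bd]; omega)
    simp only [Sat, h1, h2]
  | eq i j =>
    intro v w hvw
    have h1 : v i = w i := hvw i (by simp only [bd]; omega)
    have h2 : v j = w j := hvw j (by simp only [bd]; omega)
    simp only [Sat, h1, h2]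
  | nand φ ψ ih1 ih2 =>
    intro v w hvw
    simp only [Sat]
    rw [ih1 v w (fun i hi => hvw i (lt_of_lt_of_le hi (le_max_left _ _))),
      ih2 v w (fun i hi => hvw i (lt_of_lt_of_le hi (le_max_right _ _)))]
  | all φ ih =>
    intro v w hvw
    simp only [Sat]
    refine forall_congr' fun a => forall_congr' fun _ => ?_
    refine ih _ _ ?_
    intro i hi
    cases i with
    | zero => rfl
    | succ i => exact hvw i (by simp only [bd]; omega)

/-- the assignment given by a list -/
def asg (l : List ZFSet.{0}) : ℕ → ZFSet.{0} := fun i => l.getD i ∅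

theorem cons_asg (a : ZFSet.{0}) (l : List ZFSet.{0}) : cons a (asg l) = asg (a :: l) := by
  funext i
  cases i with
  | zero => simp [cons, asg]
  | succ i => simp [cons, asg]

/-- satisfaction over a set of the generic extension is forceable -/
theorem Fo.sat (h : IsInner M) (hG : IsGen M P le G) (hP : P ∈ M) (hle : le ∈ M)
    (hpo : IsPo P le) {t : ZFSet.{0}} (ht : t ∈ M) {u : Set ZFSet.{0}}
    (hu : ∀ x, x ∈ u ↔ ∃ τ ∈ t, val G τ = x) (φ : Fml) :
    Fo M P le G (fun l => Sat u φ (asg l)) := by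
  induction φ with
  | mem i j => exact Fo.mem h hG hP hle hpo i j
  | eq i j => exact Fo.eq h hG hP hle hpo i j
  | nand φ ψ ih1 ih2 => exact Fo.not hG hP hle hpo h (Fo.and hG h ih1 ih2)
  | all φ ih =>
    have h1 := Fo.not hG hP hle hpo h (Fo.exT ht h (Fo.not hG hP hle hpo h ih))
    obtain ⟨F, hF1, hF2, hF3⟩ := h1
    refine ⟨F, hF1, hF2, fun l hl => ?_⟩
    rw [← hF3 l hl]
    simp only [Sat]
    constructor
    · rintro ha ⟨τ, hτ, hn⟩
      apply hn
      rw [← cons_asg]
      exact ha _ ((hu _).2 ⟨τ, hτ, rfl⟩)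
    · intro hn a ha
      obtain ⟨τ, hτ, rfl⟩ := (hu _).1 ha
      by_contra hc
      exact hn ⟨τ, hτ, by rwa [← cons_asg]⟩

/-! ### the generic extension -/

/-- the generic extension `M[G]` -/
def MG (M : Set ZFSet.{0}) (G : Set ZFSet.{0}) : Set ZFSet.{0} := {x | ∃ σ ∈ M, val G σ = x}

theorem mem_val_prod (hG : IsGen M P le G) (hne : ∃ p, p ∈ G) {t x : ZFSet.{0}} :
    x ∈ val G (ZFSet.prod t P) ↔ ∃ τ ∈ t, val G τ = x := by
  rw [mem_val]
  constructor
  · rintro ⟨π, s, hs, h1, rfl⟩
    exact ⟨π, (ZFSet.pair_mem_prod.1 h1).1, rfl⟩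
  · rintro ⟨τ, hτ, rfl⟩
    obtain ⟨p, hp⟩ := hne
    exact ⟨τ, p, hp, ZFSet.pair_mem_prod.2 ⟨hτ, hG.sub p hp⟩, rfl⟩

theorem mg_inner (h : IsInner M) (hG : IsGen M P le G) (hP : P ∈ M) (hle : le ∈ M)
    (hpo : IsPo P le) : IsInner (MG M G) := by
  have hne := hG.nonempty hP hpo
  refine ⟨?_, ?_⟩
  · rintro x ⟨σ, hσ, rfl⟩ z hz
    obtain ⟨π, s, _, h1, rfl⟩ := mem_val.1 hz
    exact ⟨π, ((pm h).1 (h.trans σ hσ _ h1)).1, rfl⟩
  · intro s hs
    obtain ⟨t, ht, htr, hst⟩ := h.collect s (fun z σ => val G σ = z)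
    have hmem : ∀ x, x ∈ val G (ZFSet.prod t P) ↔ ∃ τ ∈ t, val G τ = x := fun x =>
      mem_val_prod hG hne
    refine ⟨val G (ZFSet.prod t P), ⟨ZFSet.prod t P, h.prod_mem ht hP, rfl⟩, ?_, ?_, ?_⟩
    · intro x hx z hz
      obtain ⟨τ, hτ, rfl⟩ := (hmem x).1 hx
      obtain ⟨π, s', _, h1, rfl⟩ := mem_val.1 hz
      exact (hmem _).2 ⟨π, fst_mem_trans htr (htr τ hτ h1), rfl⟩
    · intro z hz
      obtain ⟨σ, hσ, rfl⟩ := hs z hz
      exact (hmem _).2 (hst _ hz ⟨σ, hσ, rfl⟩)
    · rintro d ⟨φ, v, hv, hd⟩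
      -- names for the parameters
      have hv' : ∀ i, ∃ τ ∈ t, val G τ = v i := fun i => (hmem _).1 (hv i)
      choose w hwt hwv using hv'
      let l : List ZFSet.{0} := (List.range (bd φ)).map w
      have hl : ∀ σ ∈ l, σ ∈ M := by
        intro σ hσ
        obtain ⟨i, _, rfl⟩ := List.mem_map.1 hσ
        exact h.trans t ht _ (hwt i)
      have hlM : Cod.code l ∈ M := (code_mem_list h).2 hl
      have hasg : ∀ i < bd φ, asg (l.map (val G)) i = v i := by
        intro i hi
        simp only [asg]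
        have h1 : (l.map (val G)).getD i ∅ = val G (l.getD i ∅) := map_val_getD l i
        rw [h1]
        have h2 : l.getD i ∅ = w i := by
          simp [l, List.getD_eq_getElem?_getD, hi]
        rw [h2, hwv]
      obtain ⟨F, hF1, hF2, hF3⟩ := Fo.sat h hG hP hle hpo ht
        (u := (val G (ZFSet.prod t P) : Set ZFSet.{0})) hmem φ
      -- the name of `d`
      refine ⟨ZFSet.sep (fun z => ∃ a ∈ t, ∃ p ∈ P, (z = ZFSet.pair a p ∧ F p (a :: l)))
        (ZFSet.prod t P), ?_, ?_⟩
      · refine (AmF.sep h (α := ZFSet.{0}) (g := fun x => ZFSet.prod t P)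
          (R := fun _ z => ∃ a ∈ t, ∃ p ∈ P, (z = ZFSet.pair a p ∧ F p (a :: l)))
          (AmF.zprod h (AmF.const h t ht) (AmF.const h P hP)) ?_).mem t ht
        refine Am.bex h (AmF.const h t ht) (R := fun (q : ZFSet.{0} × ZFSet.{0}) a =>
          ∃ p ∈ P, (q.2 = ZFSet.pair a p ∧ F p (a :: l))) ?_
        refine Am.bex h (AmF.const h P hP) (R := fun (q : (ZFSet.{0} × ZFSet.{0}) × ZFSet.{0}) p =>
          (q.1.2 = ZFSet.pair q.2 p ∧ F p (q.2 :: l))) ?_
        refine Am.and h (Am.eq h (by repeat' (first | exact AmF.id h | exact AmF.fst h | exact AmF.snd h | refine AF.fst h ?_ | refine AF.snd h ?_ | refine AmF.pair h ?_ ?_ | (refine AmF.const h _ ?_; assumption) | refine AmF.prod h ?_ ?_)) (by repeat' (first | exact AmF.id h | exact AmF.fst h | exact AmF.snd h | refine AF.fst h ?_ | refine AF.snd h ?_ | refine AmF.pair h ?_ ?_ | (refine AmF.const h _ ?_; assumption) | refine AmF.prod h ?_ ?_))) ?_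
        exact hF1.comp h (f := fun q : ((ZFSet.{0} × ZFSet.{0}) × ZFSet.{0}) × ZFSet.{0} =>
          (q.2, q.1.2 :: l)) (AmF.prod h (by repeat' (first | exact AmF.id h | exact AmF.fst h | exact AmF.snd h | refine AF.fst h ?_ | refine AF.snd h ?_ | refine AmF.pair h ?_ ?_ | (refine AmF.const h _ ?_; assumption) | refine AmF.prod h ?_ ?_)) (AmF.lcons h (by repeat' (first | exact AmF.id h | exact AmF.fst h | exact AmF.snd h | refine AF.fst h ?_ | refine AF.snd h ?_ | refine AmF.pair h ?_ ?_ | (refine AmF.const h _ ?_; assumption) | refine AmF.prod h ?_ ?_))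
            (AmF.const h l hlM)))
      · ext x
        rw [mem_val, hd]
        constructor
        · rintro ⟨π, s', hs', h1, rfl⟩
          obtain ⟨_, a, ha, p, hp, h2, h3⟩ := ZFSet.mem_sep.1 h1
          obtain ⟨rfl, rfl⟩ := pair_inj.1 h2
          refine ⟨(hmem _).2 ⟨π, ha, rfl⟩, ?_⟩
          have h4 := (hF3 (π :: l) (by
            intro σ hσ
            rcases List.mem_cons.1 hσ with rfl | hσ
            · exact h.trans t ht _ ha
            · exact hl σ hσ)).2 ⟨s', hs', h3⟩
          rw [List.map_cons, ← cons_asg] at h4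
          refine (sat_congr _ φ _ _ ?_).1 h4
          intro i hi
          cases i with
          | zero => rfl
          | succ i => exact hasg i (by omega)
        · rintro ⟨hx, hsat⟩
          obtain ⟨π, hπ, rfl⟩ := (hmem _).1 hx
          have h4 : Sat (val G (ZFSet.prod t P) : Set ZFSet.{0}) φ (asg ((π :: l).map (val G))) := by
            rw [List.map_cons, ← cons_asg]
            refine (sat_congr _ φ _ _ ?_).2 hsat
            intro i hi
            cases i with
            | zero => rfl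
            | succ i => exact hasg i (by omega)
          obtain ⟨p, hp, h5⟩ := (hF3 (π :: l) (by
            intro σ hσ
            rcases List.mem_cons.1 hσ with rfl | hσ
            · exact h.trans t ht _ hπ
            · exact hl σ hσ)).1 h4
          exact ⟨π, p, hp, ZFSet.mem_sep.2 ⟨ZFSet.pair_mem_prod.2 ⟨hπ, hG.sub p hp⟩, π, hπ, p,
            hG.sub p hp, rfl, h5⟩, rfl⟩

/-- `M ⊆ M[G]` -/
theorem mem_mg (h : IsInner M) (hG : IsGen M P le G) (hP : P ∈ M) (hpo : IsPo P le)
    {x : ZFSet.{0}} (hx : x ∈ M) : x ∈ MG M G :=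
  ⟨chk P x, chk_mem h hP hx, val_chk (hG.nonempty hP hpo) hG.sub x⟩

/-- `G ∈ M[G]` -/
theorem gen_mem_mg (h : IsInner M) (hG : IsGen M P le G) (hP : P ∈ M) (hpo : IsPo P le) :
    ZFSet.sep (fun p => p ∈ G) P ∈ MG M G := by
  have hne := hG.nonempty hP hpo
  refine ⟨img (fun p => ZFSet.pair (chk P p) p) P, ?_, ?_⟩
  · refine (AmF.img h (α := ZFSet.{0}) (f := fun _ p => ZFSet.pair (chk P p) p)
      (g := fun _ => P) (AmF.const h P hP) ?_).mem P hP
    exact AmF.pair h (chk_am h hP (by repeat' (first | exact AmF.id h | exact AmF.fst h | exact AmF.snd h | refine AF.fst h ?_ | refine AF.snd h ?_ | refine AmF.pair h ?_ ?_ | (refine AmF.const h _ ?_; assumption) | refine AmF.prod h ?_ ?_))) (by repeat' (first | exact AmF.id h | exact AmF.fst h | exact AmF.snd h | refine AF.fst h ?_ | refine AF.snd h ?_ | refine AmF.pair h ?_ ?_ | (refine AmF.const h _ ?_; assumption) | refine AmF.prod h ?_ ?_))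
  · ext x
    rw [mem_val, ZFSet.mem_sep]
    constructor
    · rintro ⟨π, s, hs, h1, rfl⟩
      obtain ⟨p, hp, h2⟩ := mem_img.1 h1
      obtain ⟨rfl, rfl⟩ := pair_inj.1 h2
      rw [val_chk hne hG.sub]
      exact ⟨hp, hs⟩
    · rintro ⟨hx, hxG⟩
      exact ⟨chk P x, x, hxG, mem_img.2 ⟨x, hx, rfl⟩, val_chk hne hG.sub x⟩

end Pool.Agent.Helper33.CL
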