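import Pool.Agent.Helper33.CL.RecD

/-!
# Project CL, forcing part: names, valuations, check names, the forcing relation for equality
-/

set_option autoImplicit false

namespace Pool.Agent.Helper33.CL

open ZFSet Pool.Agent.Helper17.CL

universe u₁ u₂ u₃

variable {M : Set ZFSet.{0}} {α : Type u₁} {γ : Type u₃} [Cod α] [Cod γ]

/-! ### domain of a name -/

def dom (σ : ZFSet.{0}) : ZFSet.{0} :=
  ZFSet.sep (fun π => ∃ a s, ZFSet.pair a s ∈ σ ∧ a = π) (⋃₀ (⋃₀ σ : ZFSet.{0}))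

theorem mem_dom {σ π : ZFSet.{0}} : π ∈ dom σ ↔ ∃ s, ZFSet.pair π s ∈ σ := by
  rw [dom, ZFSet.mem_sep]
  constructor
  · rintro ⟨_, a, s, h, rfl⟩
    exact ⟨s, h⟩
  · rintro ⟨s, h⟩
    refine ⟨?_, π, s, h, rfl⟩
    refine ZFSet.mem_sUnion.2 ⟨{π}, ?_, by simp⟩
    exact ZFSet.mem_sUnion.2 ⟨_, h, by simp [ZFSet.pair]⟩

theorem dom_am (h : IsInner M) : AmF M dom := by
  unfold dom
  refine AmF.sep h (g := fun σ : ZFSet.{0} => (⋃₀ (⋃₀ σ : ZFSet.{0}) : ZFSet.{0}))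
    (R := fun (σ : ZFSet.{0}) π => ∃ a s, ZFSet.pair a s ∈ σ ∧ a = π)
    (AmF.sUnion h (AmF.sUnion h (AmF.id h))) ?_
  exact Am.pex h (by repeat' (first | exact AmF.id h | exact AmF.fst h | exact AmF.snd h | refine AF.fst h ?_ | refine AF.snd h ?_ | refine AmF.pair h ?_ ?_ | (refine AmF.const h _ ?_; assumption) | refine AmF.prod h ?_ ?_)) (R := fun (q : ZFSet.{0} × ZFSet.{0}) a _ => a = q.2)
    (Am.eq h (by repeat' (first | exact AmF.id h | exact AmF.fst h | exact AmF.snd h | refine AF.fst h ?_ | refine AF.snd h ?_ | refine AmF.pair h ?_ ?_ | (refine AmF.const h _ ?_; assumption) | refine AmF.prod h ?_ ?_)) (by repeat' (first | exact AmF.id h | exact AmF.fst h | exact AmF.snd h | refine AF.fst h ?_ | refine AF.snd h ?_ | refine AmF.pair h ?_ ?_ | (refine AmF.const h _ ?_; assumption) | refine AmF.prod h ?_ ?_)))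

theorem rank_fst_lt {π s σ : ZFSet.{0}} (h : ZFSet.pair π s ∈ σ) : π.rank < σ.rank := by
  have h1 : π ∈ ({π} : ZFSet.{0}) := by simp
  have h2 : ({π} : ZFSet.{0}) ∈ ZFSet.pair π s := by simp [ZFSet.pair]
  exact (ZFSet.rank_lt_of_mem h1).trans ((ZFSet.rank_lt_of_mem h2).trans (ZFSet.rank_lt_of_mem h))

theorem dom_rank (x : ZFSet.{0}) : ∀ y ∈ dom x, y.rank < x.rank := by
  intro y hy
  obtain ⟨s, hs⟩ := mem_dom.1 hy
  exact rank_fst_lt hs

theorem fst_mem_trans {t π s : ZFSet.{0}} (ht : t.IsTransitive) (h : ZFSet.pair π s ∈ t) : π ∈ t := by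
  have h2 : ({π} : ZFSet.{0}) ∈ ZFSet.pair π s := by simp [ZFSet.pair]
  exact ht _ (ht _ h h2) (by simp)

theorem snd_mem_trans {t π s : ZFSet.{0}} (ht : t.IsTransitive) (h : ZFSet.pair π s ∈ t) : s ∈ t := by
  have h2 : ({π, s} : ZFSet.{0}) ∈ ZFSet.pair π s := by simp [ZFSet.pair]
  exact ht _ (ht _ h h2) (by simp)

theorem dom_trans (t : ZFSet.{0}) (ht : t.IsTransitive) : ∀ x ∈ t, dom x ⊆ t := by
  intro x hx y hy
  obtain ⟨s, hs⟩ := mem_dom.1 hy
  exact fst_mem_trans ht (ht x hx hs)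

/-! ### valuation -/

instance small_sub (G : Set ZFSet.{0}) (σ : ZFSet.{0}) :
    Small.{0} {π : ZFSet.{0} // ∃ s ∈ G, ZFSet.pair π s ∈ σ} := by
  have : Small.{0} {π : ZFSet.{0} // π ∈ dom σ} := ZFSet.small_coe (dom σ)
  refine small_of_injective (β := {π : ZFSet.{0} // π ∈ dom σ})
    (f := fun x => ⟨x.1, by obtain ⟨s, _, h⟩ := x.2; exact mem_dom.2 ⟨s, h⟩⟩) ?_
  intro x y h
  apply Subtype.ext
  simpa using congrArg Subtype.val h

/-- valuation of a name -/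
noncomputable def val (G : Set ZFSet.{0}) (σ : ZFSet.{0}) : ZFSet.{0} :=
  ZFSet.range (fun x : {π : ZFSet.{0} // ∃ s ∈ G, ZFSet.pair π s ∈ σ} => val G x.1)
termination_by σ.rank
decreasing_by
  obtain ⟨s, _, h⟩ := x.2
  exact rank_fst_lt h

theorem mem_val {G : Set ZFSet.{0}} {σ x : ZFSet.{0}} :
    x ∈ val G σ ↔ ∃ π, ∃ s ∈ G, ZFSet.pair π s ∈ σ ∧ val G π = x := by
  rw [val, ZFSet.mem_range]
  constructor
  · rintro ⟨⟨π, s, hs, h⟩, rfl⟩
    exact ⟨π, s, hs, h, rfl⟩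
  · rintro ⟨π, s, hs, h, rfl⟩
    exact ⟨⟨π, s, hs, h⟩, rfl⟩

/-! ### check names -/

instance small_mem (x : ZFSet.{0}) : Small.{0} {y : ZFSet.{0} // y ∈ x} := ZFSet.small_coe x

noncomputable def chk (P : ZFSet.{0}) (x : ZFSet.{0}) : ZFSet.{0} :=
  ZFSet.prod (ZFSet.range (fun y : {y : ZFSet.{0} // y ∈ x} => chk P y.1)) P
termination_by x.rank
decreasing_by exact ZFSet.rank_lt_of_mem y.2

theorem pair_mem_chk {P x a p : ZFSet.{0}} :
    ZFSet.pair a p ∈ chk P x ↔ ∃ y ∈ x, chk P y = a ∧ p ∈ P := by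
  rw [chk, ZFSet.pair_mem_prod, ZFSet.mem_range]
  constructor
  · rintro ⟨⟨⟨y, hy⟩, rfl⟩, hp⟩
    exact ⟨y, hy, rfl, hp⟩
  · rintro ⟨y, hy, rfl, hp⟩
    exact ⟨⟨⟨y, hy⟩, rfl⟩, hp⟩

def rng (g : ZFSet.{0}) : ZFSet.{0} :=
  ZFSet.sep (fun v => ∃ a b, ZFSet.pair a b ∈ g ∧ b = v) (⋃₀ (⋃₀ g : ZFSet.{0}))

theorem mem_rng {g v : ZFSet.{0}} : v ∈ rng g ↔ ∃ u, ZFSet.pair u v ∈ g := by
  rw [rng, ZFSet.mem_sep]
  constructor
  · rintro ⟨_, a, b, h, rfl⟩
    exact ⟨a, h⟩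
  · rintro ⟨a, h⟩
    refine ⟨?_, a, v, h, rfl⟩
    refine ZFSet.mem_sUnion.2 ⟨{a, v}, ?_, by simp⟩
    exact ZFSet.mem_sUnion.2 ⟨_, h, by simp [ZFSet.pair]⟩

theorem rng_am (h : IsInner M) : AmF M rng := by
  unfold rng
  refine AmF.sep h (g := fun σ : ZFSet.{0} => (⋃₀ (⋃₀ σ : ZFSet.{0}) : ZFSet.{0}))
    (R := fun (σ : ZFSet.{0}) π => ∃ a s, ZFSet.pair a s ∈ σ ∧ s = π)
    (AmF.sUnion h (AmF.sUnion h (AmF.id h))) ?_
  exact Am.pex h (by repeat' (first | exact AmF.id h | exact AmF.fst h | exact AmF.snd h | refine AF.fst h ?_ | refine AF.snd h ?_ | refine AmF.pair h ?_ ?_ | (refine AmF.const h _ ?_; assumption) | refine AmF.prod h ?_ ?_)) (R := fun (q : ZFSet.{0} × ZFSet.{0}) _ b => b = q.2)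
    (Am.eq h (by repeat' (first | exact AmF.id h | exact AmF.fst h | exact AmF.snd h | refine AF.fst h ?_ | refine AF.snd h ?_ | refine AmF.pair h ?_ ?_ | (refine AmF.const h _ ?_; assumption) | refine AmF.prod h ?_ ?_)) (by repeat' (first | exact AmF.id h | exact AmF.fst h | exact AmF.snd h | refine AF.fst h ?_ | refine AF.snd h ?_ | refine AmF.pair h ?_ ?_ | (refine AmF.const h _ ?_; assumption) | refine AmF.prod h ?_ ?_)))

theorem chk_am' (h : IsInner M) : AmF M (fun q : ZFSet.{0} × ZFSet.{0} => chk q.1 q.2) := by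
  refine AmF.recD h (D := fun _ x => x) (H := fun P _ g => ZFSet.prod (rng g) P)
    (F := fun P x => chk P x) (by repeat' (first | exact AmF.id h | exact AmF.fst h | exact AmF.snd h | refine AF.fst h ?_ | refine AF.snd h ?_ | refine AmF.pair h ?_ ?_ | (refine AmF.const h _ ?_; assumption) | refine AmF.prod h ?_ ?_)) ?_ ?_ ?_ ?_
  · exact AmF.zprod h ((rng_am h).comp h (by repeat' (first | exact AmF.id h | exact AmF.fst h | exact AmF.snd h | refine AF.fst h ?_ | refine AF.snd h ?_ | refine AmF.pair h ?_ ?_ | (refine AmF.const h _ ?_; assumption) | refine AmF.prod h ?_ ?_))) (by repeat' (first | exact AmF.id h | exact AmF.fst h | exact AmF.snd h | refine AF.fst h ?_ | refine AF.snd h ?_ | refine AmF.pair h ?_ ?_ | (refine AmF.const h _ ?_; assumption) | refine AmF.prod h ?_ ?_))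
  · intro P t ht x hx
    exact ht x hx
  · intro P x y hy
    exact ZFSet.rank_lt_of_mem hy
  · intro P _ x _
    rw [chk]
    congr 1
    ext z
    rw [ZFSet.mem_range, mem_rng]
    constructor
    · rintro ⟨⟨y, hy⟩, rfl⟩
      exact ⟨y, pair_mem_gr.2 ⟨hy, rfl⟩⟩
    · rintro ⟨y, hy⟩
      obtain ⟨hy', rfl⟩ := pair_mem_gr.1 hy
      exact ⟨⟨y, hy'⟩, rfl⟩

theorem chk_am (h : IsInner M) {P : ZFSet.{0}} (hP : P ∈ M) {f : γ → ZFSet.{0}} (hf : AmF M f) :
    AmF M (fun x => chk P (f x)) :=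
  (chk_am' h).comp h (f := fun x => (P, f x)) ((AmF.const h P hP).prod h hf)

theorem chk_mem (h : IsInner M) {P x : ZFSet.{0}} (hP : P ∈ M) (hx : x ∈ M) : chk P x ∈ M :=
  (chk_am h hP (AmF.id h (α := ZFSet.{0}))).mem x hx

theorem val_chk {G : Set ZFSet.{0}} {P : ZFSet.{0}} (hne : ∃ p, p ∈ G) (hGP : ∀ p ∈ G, p ∈ P)
    (x : ZFSet.{0}) : val G (chk P x) = x := by
  induction x using ZFSet.inductionOn with
  | h x ih =>
    ext z
    rw [mem_val]
    constructor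
    · rintro ⟨π, s, hs, h, rfl⟩
      obtain ⟨y, hy, rfl, _⟩ := pair_mem_chk.1 h
      rw [ih y hy]
      exact hy
    · intro hz
      obtain ⟨p, hp⟩ := hne
      exact ⟨chk P z, p, hp, pair_mem_chk.2 ⟨z, hz, rfl, hGP p hp⟩, ih z hz⟩

/-! ### the forcing relation for equality -/

/-- forcing of equality -/
def FE (P le : ZFSet.{0}) (σ τ p : ZFSet.{0}) : Prop :=
  (∀ π s, ZFSet.pair π s ∈ σ → ∀ q ∈ P, ZFSet.pair q p ∈ le → ZFSet.pair q s ∈ le →
    ∃ r ∈ P, ZFSet.pair r q ∈ le ∧ ∃ π' s', ZFSet.pair π' s' ∈ τ ∧ ZFSet.pair r s' ∈ le ∧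
      FE P le π π' r) ∧
  (∀ π' s', ZFSet.pair π' s' ∈ τ → ∀ q ∈ P, ZFSet.pair q p ∈ le → ZFSet.pair q s' ∈ le →
    ∃ r ∈ P, ZFSet.pair r q ∈ le ∧ ∃ π s, ∃ _ : ZFSet.pair π s ∈ σ, ZFSet.pair r s ∈ le ∧
      FE P le π π' r)
termination_by σ.rank
decreasing_by
  · exact rank_fst_lt (by assumption)
  · exact rank_fst_lt (by assumption)

/-- membership in the graph -/
def InG (g π r π' : ZFSet.{0}) : Prop :=
  ∃ a w, ZFSet.pair a w ∈ g ∧ (a = π ∧ ZFSet.pair r π' ∈ w)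

theorem InG.am (h : IsInner M) {f1 f2 f3 f4 : γ → ZFSet.{0}} (h1 : AmF M f1) (h2 : AmF M f2)
    (h3 : AmF M f3) (h4 : AmF M f4) : Am M (fun x => InG (f1 x) (f2 x) (f3 x) (f4 x)) := by
  have h0 : Am M (fun x : ZFSet.{0} × ZFSet.{0} × ZFSet.{0} × ZFSet.{0} =>
      InG x.1 x.2.1 x.2.2.1 x.2.2.2) := by
    unfold InG
    refine Am.pex h (by repeat' (first | exact AmF.id h | exact AmF.fst h | exact AmF.snd h | refine AF.fst h ?_ | refine AF.snd h ?_ | refine AmF.pair h ?_ ?_ | (refine AmF.const h _ ?_; assumption) | refine AmF.prod h ?_ ?_)) (R := fun (x : ZFSet.{0} × ZFSet.{0} × ZFSet.{0} × ZFSet.{0}) a w =>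
      (a = x.2.1 ∧ ZFSet.pair x.2.2.1 x.2.2.2 ∈ w)) ?_
    exact Am.and h (Am.eq h (by repeat' (first | exact AmF.id h | exact AmF.fst h | exact AmF.snd h | refine AF.fst h ?_ | refine AF.snd h ?_ | refine AmF.pair h ?_ ?_ | (refine AmF.const h _ ?_; assumption) | refine AmF.prod h ?_ ?_)) (by repeat' (first | exact AmF.id h | exact AmF.fst h | exact AmF.snd h | refine AF.fst h ?_ | refine AF.snd h ?_ | refine AmF.pair h ?_ ?_ | (refine AmF.const h _ ?_; assumption) | refine AmF.prod h ?_ ?_))) (Am.mem h (by repeat' (first | exact AmF.id h | exact AmF.fst h | exact AmF.snd h | refine AF.fst h ?_ | refine AF.snd h ?_ | refine AmF.pair h ?_ ?_ | (refine AmF.const h _ ?_; assumption) | refine AmF.prod h ?_ ?_)) (by repeat' (first | exact AmF.id h | exact AmF.fst h | exact AmF.snd h | refine AF.fst h ?_ | refine AF.snd h ?_ | refine AmF.pair h ?_ ?_ | (refine AmF.const h _ ?_; assumption) | refine AmF.prod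 h ?_ ?_)))
  exact Am.comp h (R := fun x : ZFSet.{0} × ZFSet.{0} × ZFSet.{0} × ZFSet.{0} =>
      InG x.1 x.2.1 x.2.2.1 x.2.2.2) h0 (AmF.prod h h1 (AmF.prod h h2 (AmF.prod h h3 h4)))

/-- one half of the step; `τ` is the side that has to be met -/
def St1 (P le g σ τ p : ZFSet.{0}) : Prop :=
  ∀ π s, ZFSet.pair π s ∈ σ → ∀ q ∈ P, (ZFSet.pair q p ∈ le → (ZFSet.pair q s ∈ le →
    ∃ r ∈ P, (ZFSet.pair r q ∈ le ∧ ∃ π' s', ZFSet.pair π' s' ∈ τ ∧ (ZFSet.pair r s' ∈ le ∧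
      InG g π r π'))))

def St2 (P le g σ τ p : ZFSet.{0}) : Prop :=
  ∀ π' s', ZFSet.pair π' s' ∈ τ → ∀ q ∈ P, (ZFSet.pair q p ∈ le → (ZFSet.pair q s' ∈ le →
    ∃ r ∈ P, (ZFSet.pair r q ∈ le ∧ ∃ π s, ZFSet.pair π s ∈ σ ∧ (ZFSet.pair r s ∈ le ∧
      InG g π r π'))))

/-- the context type: `(P, le, g, σ, τ, p)` -/
abbrev Z6 := ZFSet.{0} × ZFSet.{0} × ZFSet.{0} × ZFSet.{0} × ZFSet.{0} × ZFSet.{0}

theorem St1.am (h : IsInner M) : Am M (fun x : Z6 => St1 x.1 x.2.1 x.2.2.1 x.2.2.2.1 x.2.2.2.2.1 x.2.2.2.2.2) := by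
  unfold St1
  refine Am.pall h (by repeat' (first | exact AmF.id h | exact AmF.fst h | exact AmF.snd h | refine AF.fst h ?_ | refine AF.snd h ?_ | refine AmF.pair h ?_ ?_ | (refine AmF.const h _ ?_; assumption) | refine AmF.prod h ?_ ?_)) (R := fun (x : Z6) π s => ∀ q ∈ x.1, (ZFSet.pair q x.2.2.2.2.2 ∈ x.2.1 →
    (ZFSet.pair q s ∈ x.2.1 →
    ∃ r ∈ x.1, (ZFSet.pair r q ∈ x.2.1 ∧ ∃ π' s', ZFSet.pair π' s' ∈ x.2.2.2.2.1 ∧
      (ZFSet.pair r s' ∈ x.2.1 ∧ InG x.2.2.1 π r π'))))) ?_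
  refine Am.ball h (by repeat' (first | exact AmF.id h | exact AmF.fst h | exact AmF.snd h | refine AF.fst h ?_ | refine AF.snd h ?_ | refine AmF.pair h ?_ ?_ | (refine AmF.const h _ ?_; assumption) | refine AmF.prod h ?_ ?_)) (R := fun (x : (Z6 × ZFSet.{0}) × ZFSet.{0}) q =>
    (ZFSet.pair q x.1.1.2.2.2.2.2 ∈ x.1.1.2.1 → (ZFSet.pair q x.2 ∈ x.1.1.2.1 →
    ∃ r ∈ x.1.1.1, (ZFSet.pair r q ∈ x.1.1.2.1 ∧ ∃ π' s', ZFSet.pair π' s' ∈ x.1.1.2.2.2.2.1 ∧
      (ZFSet.pair r s' ∈ x.1.1.2.1 ∧ InG x.1.1.2.2.1 x.1.2 r π'))))) ?_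
  refine Am.imp h (Am.mem h (by repeat' (first | exact AmF.id h | exact AmF.fst h | exact AmF.snd h | refine AF.fst h ?_ | refine AF.snd h ?_ | refine AmF.pair h ?_ ?_ | (refine AmF.const h _ ?_; assumption) | refine AmF.prod h ?_ ?_)) (by repeat' (first | exact AmF.id h | exact AmF.fst h | exact AmF.snd h | refine AF.fst h ?_ | refine AF.snd h ?_ | refine AmF.pair h ?_ ?_ | (refine AmF.const h _ ?_; assumption) | refine AmF.prod h ?_ ?_))) (Am.imp h (Am.mem h (by repeat' (first | exact AmF.id h | exact AmF.fst h | exact AmF.snd h | refine AF.fst h ?_ | refine AF.snd h ?_ | refine AmF.pair h ?_ ?_ | (refine AmF.const h _ ?_; assumption) | refine AmF.prod h ?_ ?_)) (by repeat' (first | exact AmF.id h | exact AmF.fst h | exact AmF.snd h | refine AF.fst h ?_ | refine AF.snd h ?_ | refine AmF.pair h ?_ ?_ | (refine AmF.const h _ ?_; assumption) | refine AmF.prod h ?_ ?_))) ?_)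
  refine Am.bex h (by repeat' (first | exact AmF.id h | exact AmF.fst h | exact AmF.snd h | refine AF.fst h ?_ | refine AF.snd h ?_ | refine AmF.pair h ?_ ?_ | (refine AmF.const h _ ?_; assumption) | refine AmF.prod h ?_ ?_)) (R := fun (x : ((Z6 × ZFSet.{0}) × ZFSet.{0}) × ZFSet.{0}) r =>
    (ZFSet.pair r x.2 ∈ x.1.1.1.2.1 ∧ ∃ π' s', ZFSet.pair π' s' ∈ x.1.1.1.2.2.2.2.1 ∧
      (ZFSet.pair r s' ∈ x.1.1.1.2.1 ∧ InG x.1.1.1.2.2.1 x.1.1.2 r π'))) ?_
  refine Am.and h (Am.mem h (by repeat' (first | exact AmF.id h | exact AmF.fst h | exact AmF.snd h | refine AF.fst h ?_ | refine AF.snd h ?_ | refine AmF.pair h ?_ ?_ | (refine AmF.const h _ ?_; assumption) | refine AmF.prod h ?_ ?_)) (by repeat' (first | exact AmF.id h | exact AmF.fst h | exact AmF.snd h | refine AF.fst h ?_ | refine AF.snd h ?_ | refine AmF.pair h ?_ ?_ | (refine AmF.const h _ ?_; assumption) | refine AmF.prod h ?_ ?_))) ?_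
  refine Am.pex h (by repeat' (first | exact AmF.id h | exact AmF.fst h | exact AmF.snd h | refine AF.fst h ?_ | refine AF.snd h ?_ | refine AmF.pair h ?_ ?_ | (refine AmF.const h _ ?_; assumption) | refine AmF.prod h ?_ ?_))
    (R := fun (x : (((Z6 × ZFSet.{0}) × ZFSet.{0}) × ZFSet.{0}) × ZFSet.{0}) π' s' =>
      (ZFSet.pair x.2 s' ∈ x.1.1.1.1.2.1 ∧ InG x.1.1.1.1.2.2.1 x.1.1.1.2 x.2 π')) ?_
  exact Am.and h (Am.mem h (by repeat' (first | exact AmF.id h | exact AmF.fst h | exact AmF.snd h | refine AF.fst h ?_ | refine AF.snd h ?_ | refine AmF.pair h ?_ ?_ | (refine AmF.const h _ ?_; assumption) | refine AmF.prod h ?_ ?_)) (by repeat' (first | exact AmF.id h | exact AmF.fst h | exact AmF.snd h | refine AF.fst h ?_ | refine AF.snd h ?_ | refine AmF.pair h ?_ ?_ | (refine AmF.const h _ ?_; assumption) | refine AmF.prod h ?_ ?_))) (InG.am h (by repeat' (first | exact AmF.id h | exact AmF.fst h | exact AmF.snd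 h | refine AF.fst h ?_ | refine AF.snd h ?_ | refine AmF.pair h ?_ ?_ | (refine AmF.const h _ ?_; assumption) | refine AmF.prod h ?_ ?_)) (by repeat' (first | exact AmF.id h | exact AmF.fst h | exact AmF.snd h | refine AF.fst h ?_ | refine AF.snd h ?_ | refine AmF.pair h ?_ ?_ | (refine AmF.const h _ ?_; assumption) | refine AmF.prod h ?_ ?_)) (by repeat' (first | exact AmF.id h | exact AmF.fst h | exact AmF.snd h | refine AF.fst h ?_ | refine AF.snd h ?_ | refine AmF.pair h ?_ ?_ | (refine AmF.const h _ ?_; assumption) | refine AmF.prod h ?_ ?_)) (by repeat' (first | exact AmF.id h | exact AmF.fst h | exact AmF.snd h | refine AF.fst h ?_ | refine AF.snd h ?_ | refine AmF.pair h ?_ ?_ | (refine AmF.const h _ ?_; assumption) | refine AmF.prod h ?_ ?_)))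

theorem St2.am (h : IsInner M) : Am M (fun x : Z6 => St2 x.1 x.2.1 x.2.2.1 x.2.2.2.1 x.2.2.2.2.1 x.2.2.2.2.2) := by
  unfold St2
  refine Am.pall h (by repeat' (first | exact AmF.id h | exact AmF.fst h | exact AmF.snd h | refine AF.fst h ?_ | refine AF.snd h ?_ | refine AmF.pair h ?_ ?_ | (refine AmF.const h _ ?_; assumption) | refine AmF.prod h ?_ ?_)) (R := fun (x : Z6) π' s' => ∀ q ∈ x.1, (ZFSet.pair q x.2.2.2.2.2 ∈ x.2.1 →
    (ZFSet.pair q s' ∈ x.2.1 →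
    ∃ r ∈ x.1, (ZFSet.pair r q ∈ x.2.1 ∧ ∃ π s, ZFSet.pair π s ∈ x.2.2.2.1 ∧
      (ZFSet.pair r s ∈ x.2.1 ∧ InG x.2.2.1 π r π'))))) ?_
  refine Am.ball h (by repeat' (first | exact AmF.id h | exact AmF.fst h | exact AmF.snd h | refine AF.fst h ?_ | refine AF.snd h ?_ | refine AmF.pair h ?_ ?_ | (refine AmF.const h _ ?_; assumption) | refine AmF.prod h ?_ ?_)) (R := fun (x : (Z6 × ZFSet.{0}) × ZFSet.{0}) q =>
    (ZFSet.pair q x.1.1.2.2.2.2.2 ∈ x.1.1.2.1 → (ZFSet.pair q x.2 ∈ x.1.1.2.1 →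
    ∃ r ∈ x.1.1.1, (ZFSet.pair r q ∈ x.1.1.2.1 ∧ ∃ π s, ZFSet.pair π s ∈ x.1.1.2.2.2.1 ∧
      (ZFSet.pair r s ∈ x.1.1.2.1 ∧ InG x.1.1.2.2.1 π r x.1.2))))) ?_
  refine Am.imp h (Am.mem h (by repeat' (first | exact AmF.id h | exact AmF.fst h | exact AmF.snd h | refine AF.fst h ?_ | refine AF.snd h ?_ | refine AmF.pair h ?_ ?_ | (refine AmF.const h _ ?_; assumption) | refine AmF.prod h ?_ ?_)) (by repeat' (first | exact AmF.id h | exact AmF.fst h | exact AmF.snd h | refine AF.fst h ?_ | refine AF.snd h ?_ | refine AmF.pair h ?_ ?_ | (refine AmF.const h _ ?_; assumption) | refine AmF.prod h ?_ ?_))) (Am.imp h (Am.mem h (by repeat' (first | exact AmF.id h | exact AmF.fst h | exact AmF.snd h | refine AF.fst h ?_ | refine AF.snd h ?_ | refine AmF.pair h ?_ ?_ | (refine AmF.const h _ ?_; assumption) | refine AmF.prod h ?_ ?_)) (by repeat' (first | exact AmF.id h | exact AmF.fst h | exact AmF.snd h | refine AF.fst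 h ?_ | refine AF.snd h ?_ | refine AmF.pair h ?_ ?_ | (refine AmF.const h _ ?_; assumption) | refine AmF.prod h ?_ ?_))) ?_)
  refine Am.bex h (by repeat' (first | exact AmF.id h | exact AmF.fst h | exact AmF.snd h | refine AF.fst h ?_ | refine AF.snd h ?_ | refine AmF.pair h ?_ ?_ | (refine AmF.const h _ ?_; assumption) | refine AmF.prod h ?_ ?_)) (R := fun (x : ((Z6 × ZFSet.{0}) × ZFSet.{0}) × ZFSet.{0}) r =>
    (ZFSet.pair r x.2 ∈ x.1.1.1.2.1 ∧ ∃ π s, ZFSet.pair π s ∈ x.1.1.1.2.2.2.1 ∧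
      (ZFSet.pair r s ∈ x.1.1.1.2.1 ∧ InG x.1.1.1.2.2.1 π r x.1.1.2))) ?_
  refine Am.and h (Am.mem h (by repeat' (first | exact AmF.id h | exact AmF.fst h | exact AmF.snd h | refine AF.fst h ?_ | refine AF.snd h ?_ | refine AmF.pair h ?_ ?_ | (refine AmF.const h _ ?_; assumption) | refine AmF.prod h ?_ ?_)) (by repeat' (first | exact AmF.id h | exact AmF.fst h | exact AmF.snd h | refine AF.fst h ?_ | refine AF.snd h ?_ | refine AmF.pair h ?_ ?_ | (refine AmF.const h _ ?_; assumption) | refine AmF.prod h ?_ ?_))) ?_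
  refine Am.pex h (by repeat' (first | exact AmF.id h | exact AmF.fst h | exact AmF.snd h | refine AF.fst h ?_ | refine AF.snd h ?_ | refine AmF.pair h ?_ ?_ | (refine AmF.const h _ ?_; assumption) | refine AmF.prod h ?_ ?_))
    (R := fun (x : (((Z6 × ZFSet.{0}) × ZFSet.{0}) × ZFSet.{0}) × ZFSet.{0}) π s =>
      (ZFSet.pair x.2 s ∈ x.1.1.1.1.2.1 ∧ InG x.1.1.1.1.2.2.1 π x.2 x.1.1.1.2)) ?_
  exact Am.and h (Am.mem h (by repeat' (first | exact AmF.id h | exact AmF.fst h | exact AmF.snd h | refine AF.fst h ?_ | refine AF.snd h ?_ | refine AmF.pair h ?_ ?_ | (refine AmF.const h _ ?_; assumption) | refine AmF.prod h ?_ ?_)) (by repeat' (first | exact AmF.id h | exact AmF.fst h | exact AmF.snd h | refine AF.fst h ?_ | refine AF.snd h ?_ | refine AmF.pair h ?_ ?_ | (refine AmF.const h _ ?_; assumption) | refine AmF.prod h ?_ ?_))) (InG.am h (by repeat' (first | exact AmF.id h | exact AmF.fst h | exact AmF.snd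 h | refine AF.fst h ?_ | refine AF.snd h ?_ | refine AmF.pair h ?_ ?_ | (refine AmF.const h _ ?_; assumption) | refine AmF.prod h ?_ ?_)) (by repeat' (first | exact AmF.id h | exact AmF.fst h | exact AmF.snd h | refine AF.fst h ?_ | refine AF.snd h ?_ | refine AmF.pair h ?_ ?_ | (refine AmF.const h _ ?_; assumption) | refine AmF.prod h ?_ ?_)) (by repeat' (first | exact AmF.id h | exact AmF.fst h | exact AmF.snd h | refine AF.fst h ?_ | refine AF.snd h ?_ | refine AmF.pair h ?_ ?_ | (refine AmF.const h _ ?_; assumption) | refine AmF.prod h ?_ ?_)) (by repeat' (first | exact AmF.id h | exact AmF.fst h | exact AmF.snd h | refine AF.fst h ?_ | refine AF.snd h ?_ | refine AmF.pair h ?_ ?_ | (refine AmF.const h _ ?_; assumption) | refine AmF.prod h ?_ ?_)))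

def St (P le g σ τ p : ZFSet.{0}) : Prop := St1 P le g σ τ p ∧ St2 P le g σ τ p

theorem St.am (h : IsInner M) {P le : ZFSet.{0}} (hP : P ∈ M) (hle : le ∈ M)
    {g σ τ p : γ → ZFSet.{0}} (hg : AmF M g) (hσ : AmF M σ) (hτ : AmF M τ) (hp : AmF M p) :
    Am M (fun x => St P le (g x) (σ x) (τ x) (p x)) := by
  have e : AmF M (fun x : γ => ((P, le, g x, σ x, τ x, p x) : Z6)) :=
    AmF.prod h (AmF.const h P hP) (AmF.prod h (AmF.const h le hle) (AmF.prod h hg (AmF.prod h hσ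
      (AmF.prod h hτ hp))))
  exact Am.and h ((St1.am h).comp h e) ((St2.am h).comp h e)

/-- the slice of forced equalities with right-hand sides in `t` -/
def FT (P le t σ : ZFSet.{0}) : ZFSet.{0} :=
  ZFSet.sep (fun z => ∃ p ∈ P, ∃ τ ∈ t, (z = ZFSet.pair p τ ∧ FE P le σ τ p)) (ZFSet.prod P t)

theorem mem_FT {P le t σ p τ : ZFSet.{0}} :
    ZFSet.pair p τ ∈ FT P le t σ ↔ p ∈ P ∧ τ ∈ t ∧ FE P le σ τ p := by
  rw [FT, ZFSet.mem_sep, ZFSet.pair_mem_prod]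
  constructor
  · rintro ⟨⟨hp, hτ⟩, p', _, τ', _, h, h'⟩
    obtain ⟨rfl, rfl⟩ := pair_inj.1 h
    exact ⟨hp, hτ, h'⟩
  · rintro ⟨hp, hτ, h⟩
    exact ⟨⟨hp, hτ⟩, p, hp, τ, hτ, rfl, h⟩

theorem FE_iff_St {P le t σ τ p : ZFSet.{0}} (ht : t.IsTransitive) (hτ : τ ∈ t) :
    FE P le σ τ p ↔ St P le (gr (FT P le t) (dom σ)) σ τ p := by
  have key : ∀ π s π' s' r, ZFSet.pair π s ∈ σ → ZFSet.pair π' s' ∈ τ → r ∈ P →
      (InG (gr (FT P le t) (dom σ)) π r π' ↔ FE P le π π' r) := by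
    intro π s π' s' r hπ hπ' hr
    constructor
    · rintro ⟨a, w, h1, rfl, h2⟩
      obtain ⟨hy, rfl⟩ := pair_mem_gr.1 h1
      exact (mem_FT.1 h2).2.2
    · intro h
      exact ⟨π, FT P le t π, pair_mem_gr.2 ⟨mem_dom.2 ⟨s, hπ⟩, rfl⟩, rfl,
        mem_FT.2 ⟨hr, fst_mem_trans ht (ht τ hτ hπ'), h⟩⟩
  rw [FE, St, St1, St2]
  constructor
  · rintro ⟨h1, h2⟩
    constructor
    · intro π s hπ q hq hqp hqs
      obtain ⟨r, hr, hrq, π', s', hπ', hrs, h⟩ := h1 π s hπ q hq hqp hqs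
      exact ⟨r, hr, hrq, π', s', hπ', hrs, (key π s π' s' r hπ hπ' hr).2 h⟩
    · intro π' s' hπ' q hq hqp hqs
      obtain ⟨r, hr, hrq, π, s, hπ, hrs, h⟩ := h2 π' s' hπ' q hq hqp hqs
      exact ⟨r, hr, hrq, π, s, hπ, hrs, (key π s π' s' r hπ hπ' hr).2 h⟩
  · rintro ⟨h1, h2⟩
    constructor
    · intro π s hπ q hq hqp hqs
      obtain ⟨r, hr, hrq, π', s', hπ', hrs, h⟩ := h1 π s hπ q hq hqp hqs
      exact ⟨r, hr, hrq, π', s', hπ', hrs, (key π s π' s' r hπ hπ' hr).1 h⟩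
    · intro π' s' hπ' q hq hqp hqs
      obtain ⟨r, hr, hrq, π, s, hπ, hrs, h⟩ := h2 π' s' hπ' q hq hqp hqs
      exact ⟨r, hr, hrq, π, s, hπ, hrs, (key π s π' s' r hπ hπ' hr).1 h⟩

theorem FT_am (h : IsInner M) {P le t : ZFSet.{0}} (hP : P ∈ M) (hle : le ∈ M) (ht : t ∈ M)
    (htr : t.IsTransitive) : AmF M (FT P le t) := by
  have h1 : AmF M (fun q : ZFSet.{0} × ZFSet.{0} => (fun _ : ZFSet.{0} => FT P le t) q.1 q.2) := by
    have hd : AmF M (fun q : ZFSet.{0} × ZFSet.{0} => (fun _ : ZFSet.{0} => dom) q.1 q.2) :=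
      (dom_am h).comp h (AmF.snd h)
    refine AmF.recD h (D := fun (_ : ZFSet.{0}) => dom) (F := fun (_ : ZFSet.{0}) => FT P le t)
      (H := fun (_ : ZFSet.{0}) σ g => ZFSet.sep (fun z => ∃ p ∈ P, ∃ τ ∈ t, (z = ZFSet.pair p τ ∧
        St P le g σ τ p)) (ZFSet.prod P t)) hd ?_
        (fun _ => dom_trans) (fun _ => dom_rank) ?_
    · refine AmF.sep h (R := fun (q : ZFSet.{0} × ZFSet.{0} × ZFSet.{0}) z => ∃ p ∈ P, ∃ τ ∈ t,
        (z = ZFSet.pair p τ ∧ St P le q.2.2 q.2.1 τ p))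
        (AmF.zprod h (AmF.const h P hP) (AmF.const h t ht)) ?_
      refine Am.bex h (AmF.const h P hP) (R := fun (q : (ZFSet.{0} × ZFSet.{0} × ZFSet.{0}) ×
        ZFSet.{0}) p => ∃ τ ∈ t, (q.2 = ZFSet.pair p τ ∧ St P le q.1.2.2 q.1.2.1 τ p)) ?_
      refine Am.bex h (AmF.const h t ht) (R := fun (q : ((ZFSet.{0} × ZFSet.{0} × ZFSet.{0}) ×
        ZFSet.{0}) × ZFSet.{0}) τ => (q.1.2 = ZFSet.pair q.2 τ ∧
          St P le q.1.1.2.2 q.1.1.2.1 τ q.2)) ?_
      exact Am.and h (Am.eq h (by repeat' (first | exact AmF.id h | exact AmF.fst h | exact AmF.snd h | refine AF.fst h ?_ | refine AF.snd h ?_ | refine AmF.pair h ?_ ?_ | (refine AmF.const h _ ?_; assumption) | refine AmF.prod h ?_ ?_)) (by repeat' (first | exact AmF.id h | exact AmF.fst h | exact AmF.snd h | refine AF.fst h ?_ | refine AF.snd h ?_ | refine AmF.pair h ?_ ?_ | (refine AmF.const h _ ?_; assumption) | refine AmF.prod h ?_ ?_)))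
        (St.am h hP hle (by repeat' (first | exact AmF.id h | exact AmF.fst h | exact AmF.snd h | refine AF.fst h ?_ | refine AF.snd h ?_ | refine AmF.pair h ?_ ?_ | (refine AmF.const h _ ?_; assumption) | refine AmF.prod h ?_ ?_)) (by repeat' (first | exact AmF.id h | exact AmF.fst h | exact AmF.snd h | refine AF.fst h ?_ | refine AF.snd h ?_ | refine AmF.pair h ?_ ?_ | (refine AmF.const h _ ?_; assumption) | refine AmF.prod h ?_ ?_)) (by repeat' (first | exact AmF.id h | exact AmF.fst h | exact AmF.snd h | refine AF.fst h ?_ | refine AF.snd h ?_ | refine AmF.pair h ?_ ?_ | (refine AmF.const h _ ?_; assumption) | refine AmF.prod h ?_ ?_)) (by repeat' (first | exact AmF.id h | exact AmF.fst h | exact AmF.snd h | refine AF.fst h ?_ | refine AF.snd h ?_ | refine AmF.pair h ?_ ?_ | (refine AmF.const h _ ?_; assumption) | refine AmF.prod h ?_ ?_)))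
    · intro _ _ σ _
      ext z
      rw [FT, ZFSet.mem_sep, ZFSet.mem_sep]
      constructor
      · rintro ⟨hz, p, hp, τ, hτ, h1, h2⟩
        exact ⟨hz, p, hp, τ, hτ, h1, (FE_iff_St htr hτ).1 h2⟩
      · rintro ⟨hz, p, hp, τ, hτ, h1, h2⟩
        exact ⟨hz, p, hp, τ, hτ, h1, (FE_iff_St htr hτ).2 h2⟩
  exact h1.comp h (f := fun x : ZFSet.{0} => (x, x)) (by repeat' (first | exact AmF.id h | exact AmF.fst h | exact AmF.snd h | refine AF.fst h ?_ | refine AF.snd h ?_ | refine AmF.pair h ?_ ?_ | (refine AmF.const h _ ?_; assumption) | refine AmF.prod h ?_ ?_))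

/-- `FE` on conditions is amenable -/
theorem FE_am (h : IsInner M) {P le : ZFSet.{0}} (hP : P ∈ M) (hle : le ∈ M)
    {σ τ p : γ → ZFSet.{0}} (hσ : AmF M σ) (hτ : AmF M τ) (hp : AmF M p) :
    Am M (fun x => p x ∈ P ∧ FE P le (σ x) (τ x) (p x)) := by
  have h0 : Am M (fun q : (ZFSet.{0} × ZFSet.{0}) × ZFSet.{0} =>
      q.2 ∈ P ∧ FE P le q.1.1 q.1.2 q.2) := by
    refine Am.local h ?_
    intro t ht htr
    refine ⟨fun q => ZFSet.pair q.2 q.1.2 ∈ FT P le t q.1.1, ?_, ?_⟩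
    · exact Am.mem h (by repeat' (first | exact AmF.id h | exact AmF.fst h | exact AmF.snd h | refine AF.fst h ?_ | refine AF.snd h ?_ | refine AmF.pair h ?_ ?_ | (refine AmF.const h _ ?_; assumption) | refine AmF.prod h ?_ ?_)) ((FT_am h hP hle ht htr).comp h (by repeat' (first | exact AmF.id h | exact AmF.fst h | exact AmF.snd h | refine AF.fst h ?_ | refine AF.snd h ?_ | refine AmF.pair h ?_ ?_ | (refine AmF.const h _ ?_; assumption) | refine AmF.prod h ?_ ?_)))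
    · rintro ⟨⟨σ, τ⟩, p⟩ hx
      have h1 : ZFSet.pair (ZFSet.pair σ τ) p ∈ t := hx
      have h2 : τ ∈ t := snd_mem_trans htr (fst_mem_trans htr h1)
      show p ∈ P ∧ FE P le σ τ p ↔ ZFSet.pair p τ ∈ FT P le t σ
      rw [mem_FT]
      constructor
      · rintro ⟨h3, h4⟩
        exact ⟨h3, h2, h4⟩
      · rintro ⟨h3, _, h4⟩
        exact ⟨h3, h4⟩
  exact h0.comp h (AmF.prod h (AmF.prod h hσ hτ) hp)

end Pool.Agent.Helper33.CL
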