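import Pool.Agent.Helper33.CL.Shim

/-!
# Project CL: recursion along a local relation

`AmF.recD`: `F p x = H p x (gr (F p) (D p x))` where `D p x` is contained in every transitive set
which contains `x`, and consists of sets of smaller rank.
-/

set_option autoImplicit false

namespace Pool.Agent.Helper33.CL

open ZFSet Pool.Agent.Helper17.CL

universe u₁ u₂ u₃

variable {M : Set ZFSet.{0}} {α : Type u₁} {γ : Type u₃} [Cod α] [Cod γ]

/-- the part of `g` with first coordinates in `d` -/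
def restr (g d : ZFSet.{0}) : ZFSet.{0} :=
  ZFSet.sep (fun z => ∃ u ∈ d, ∃ a b, ZFSet.pair a b ∈ g ∧ a = u ∧ z = ZFSet.pair a b) g

theorem mem_restr {g d z : ZFSet.{0}} :
    z ∈ restr g d ↔ ∃ u ∈ d, ∃ v, ZFSet.pair u v ∈ g ∧ z = ZFSet.pair u v := by
  rw [restr, ZFSet.mem_sep]
  constructor
  · rintro ⟨_, u, hu, a, b, h1, rfl, h2⟩
    exact ⟨a, hu, b, h1, h2⟩
  · rintro ⟨u, hu, v, h1, rfl⟩
    exact ⟨h1, u, hu, u, v, h1, rfl, rfl⟩

theorem restr_am (h : IsInner M) {f g : γ → ZFSet.{0}} (hf : AmF M f) (hg : AmF M g) :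
    AmF M (fun x => restr (f x) (g x)) := by
  have h1 : AmF M (fun q : ZFSet.{0} × ZFSet.{0} => restr q.1 q.2) := by
    unfold restr
    refine AmF.sep h (g := fun q : ZFSet.{0} × ZFSet.{0} => q.1)
      (R := fun q z => ∃ u ∈ q.2, ∃ a b, ZFSet.pair a b ∈ q.1 ∧ a = u ∧ z = ZFSet.pair a b)
      (by repeat' (first | exact AmF.id h | exact AmF.fst h | exact AmF.snd h | refine AF.fst h ?_ | refine AF.snd h ?_ | refine AmF.pair h ?_ ?_ | (refine AmF.const h _ ?_; assumption) | refine AmF.prod h ?_ ?_)) ?_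
    refine Am.bex h (by repeat' (first | exact AmF.id h | exact AmF.fst h | exact AmF.snd h | refine AF.fst h ?_ | refine AF.snd h ?_ | refine AmF.pair h ?_ ?_ | (refine AmF.const h _ ?_; assumption) | refine AmF.prod h ?_ ?_)) (R := fun (q : (ZFSet.{0} × ZFSet.{0}) × ZFSet.{0}) u =>
      ∃ a b, ZFSet.pair a b ∈ q.1.1 ∧ a = u ∧ q.2 = ZFSet.pair a b) ?_
    refine Am.pex h (by repeat' (first | exact AmF.id h | exact AmF.fst h | exact AmF.snd h | refine AF.fst h ?_ | refine AF.snd h ?_ | refine AmF.pair h ?_ ?_ | (refine AmF.const h _ ?_; assumption) | refine AmF.prod h ?_ ?_)) (R := fun (q : ((ZFSet.{0} × ZFSet.{0}) × ZFSet.{0}) × ZFSet.{0})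
      a b => a = q.2 ∧ q.1.2 = ZFSet.pair a b) ?_
    refine Am.and h (Am.eq h (by repeat' (first | exact AmF.id h | exact AmF.fst h | exact AmF.snd h | refine AF.fst h ?_ | refine AF.snd h ?_ | refine AmF.pair h ?_ ?_ | (refine AmF.const h _ ?_; assumption) | refine AmF.prod h ?_ ?_)) (by repeat' (first | exact AmF.id h | exact AmF.fst h | exact AmF.snd h | refine AF.fst h ?_ | refine AF.snd h ?_ | refine AmF.pair h ?_ ?_ | (refine AmF.const h _ ?_; assumption) | refine AmF.prod h ?_ ?_))) (Am.eq h (by repeat' (first | exact AmF.id h | exact AmF.fst h | exact AmF.snd h | refine AF.fst h ?_ | refine AF.snd h ?_ | refine AmF.pair h ?_ ?_ | (refine AmF.const h _ ?_; assumption) | refine AmF.prod h ?_ ?_)) (by repeat' (first | exact AmF.id h | exact AmF.fst h | exact AmF.snd h | refine AF.fst h ?_ | refine AF.snd h ?_ | refine AmF.pair h ?_ ?_ | (refine AmF.const h _ ?_; assumption) | refine AmF.prod h ?_ ?_)))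
  exact h1.comp h (hf.prod h hg)

/-- attempts -/
def AttD (D : α → ZFSet.{0} → ZFSet.{0}) (H : α → ZFSet.{0} → ZFSet.{0} → ZFSet.{0})
    (p : α) (t g : ZFSet.{0}) : Prop :=
  t.IsTransitive ∧ (∀ x ∈ t, ∃ a b, ZFSet.pair a b ∈ g ∧ a = x) ∧
    (∀ x ∈ t, ∀ a b, ZFSet.pair a b ∈ g → (a = x → b = H p x (restr g (D p x))))

theorem AttD.am (h : IsInner M) {D : α → ZFSet.{0} → ZFSet.{0}}
    {H : α → ZFSet.{0} → ZFSet.{0} → ZFSet.{0}}
    (hD : AmF M (fun q : α × ZFSet.{0} => D q.1 q.2))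
    (hH : AmF M (fun q : α × ZFSet.{0} × ZFSet.{0} => H q.1 q.2.1 q.2.2)) :
    Am M (fun q : α × ZFSet.{0} × ZFSet.{0} => AttD D H q.1 q.2.1 q.2.2) := by
  unfold AttD
  refine Am.and h (Am.isTransitive h (by repeat' (first | exact AmF.id h | exact AmF.fst h | exact AmF.snd h | refine AF.fst h ?_ | refine AF.snd h ?_ | refine AmF.pair h ?_ ?_ | (refine AmF.const h _ ?_; assumption) | refine AmF.prod h ?_ ?_))) (Am.and h ?_ ?_)
  · refine Am.ball h (by repeat' (first | exact AmF.id h | exact AmF.fst h | exact AmF.snd h | refine AF.fst h ?_ | refine AF.snd h ?_ | refine AmF.pair h ?_ ?_ | (refine AmF.const h _ ?_; assumption) | refine AmF.prod h ?_ ?_)) (R := fun (q : α × ZFSet.{0} × ZFSet.{0}) x =>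
      ∃ a b, ZFSet.pair a b ∈ q.2.2 ∧ a = x) ?_
    refine Am.pex h (by repeat' (first | exact AmF.id h | exact AmF.fst h | exact AmF.snd h | refine AF.fst h ?_ | refine AF.snd h ?_ | refine AmF.pair h ?_ ?_ | (refine AmF.const h _ ?_; assumption) | refine AmF.prod h ?_ ?_)) (R := fun (q : (α × ZFSet.{0} × ZFSet.{0}) × ZFSet.{0}) a _ =>
      a = q.2) (Am.eq h (by repeat' (first | exact AmF.id h | exact AmF.fst h | exact AmF.snd h | refine AF.fst h ?_ | refine AF.snd h ?_ | refine AmF.pair h ?_ ?_ | (refine AmF.const h _ ?_; assumption) | refine AmF.prod h ?_ ?_)) (by repeat' (first | exact AmF.id h | exact AmF.fst h | exact AmF.snd h | refine AF.fst h ?_ | refine AF.snd h ?_ | refine AmF.pair h ?_ ?_ | (refine AmF.const h _ ?_; assumption) | refine AmF.prod h ?_ ?_)))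
  · refine Am.ball h (by repeat' (first | exact AmF.id h | exact AmF.fst h | exact AmF.snd h | refine AF.fst h ?_ | refine AF.snd h ?_ | refine AmF.pair h ?_ ?_ | (refine AmF.const h _ ?_; assumption) | refine AmF.prod h ?_ ?_)) (R := fun (q : α × ZFSet.{0} × ZFSet.{0}) x =>
      ∀ a b, ZFSet.pair a b ∈ q.2.2 → (a = x → b = H q.1 x (restr q.2.2 (D q.1 x)))) ?_
    refine Am.pall h (by repeat' (first | exact AmF.id h | exact AmF.fst h | exact AmF.snd h | refine AF.fst h ?_ | refine AF.snd h ?_ | refine AmF.pair h ?_ ?_ | (refine AmF.const h _ ?_; assumption) | refine AmF.prod h ?_ ?_)) (R := fun (q : (α × ZFSet.{0} × ZFSet.{0}) × ZFSet.{0}) a b =>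
      (a = q.2 → b = H q.1.1 q.2 (restr q.1.2.2 (D q.1.1 q.2)))) ?_
    refine Am.imp h (Am.eq h (by repeat' (first | exact AmF.id h | exact AmF.fst h | exact AmF.snd h | refine AF.fst h ?_ | refine AF.snd h ?_ | refine AmF.pair h ?_ ?_ | (refine AmF.const h _ ?_; assumption) | refine AmF.prod h ?_ ?_)) (by repeat' (first | exact AmF.id h | exact AmF.fst h | exact AmF.snd h | refine AF.fst h ?_ | refine AF.snd h ?_ | refine AmF.pair h ?_ ?_ | (refine AmF.const h _ ?_; assumption) | refine AmF.prod h ?_ ?_))) (Am.eq h (by repeat' (first | exact AmF.id h | exact AmF.fst h | exact AmF.snd h | refine AF.fst h ?_ | refine AF.snd h ?_ | refine AmF.pair h ?_ ?_ | (refine AmF.const h _ ?_; assumption) | refine AmF.prod h ?_ ?_)) ?_)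
    have e1 : AmF M (fun q : ((α × ZFSet.{0} × ZFSet.{0}) × ZFSet.{0}) × ZFSet.{0} × ZFSet.{0} =>
      q.1.1.1) := by repeat' (first | exact AmF.id h | exact AmF.fst h | exact AmF.snd h | refine AF.fst h ?_ | refine AF.snd h ?_ | refine AmF.pair h ?_ ?_ | (refine AmF.const h _ ?_; assumption) | refine AmF.prod h ?_ ?_)
    have hd : AmF M (fun q : (((α × ZFSet.{0} × ZFSet.{0}) × ZFSet.{0}) × ZFSet.{0}) × ZFSet.{0} =>
        D q.1.1.1.1 q.1.1.2) :=
      hD.comp h (f := fun q : (((α × ZFSet.{0} × ZFSet.{0}) × ZFSet.{0}) × ZFSet.{0}) × ZFSet.{0} =>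
        (q.1.1.1.1, q.1.1.2)) (by repeat' (first | exact AmF.id h | exact AmF.fst h | exact AmF.snd h | refine AF.fst h ?_ | refine AF.snd h ?_ | refine AmF.pair h ?_ ?_ | (refine AmF.const h _ ?_; assumption) | refine AmF.prod h ?_ ?_))
    have hr : AmF M (fun q : (((α × ZFSet.{0} × ZFSet.{0}) × ZFSet.{0}) × ZFSet.{0}) × ZFSet.{0} =>
        restr q.1.1.1.2.2 (D q.1.1.1.1 q.1.1.2)) := restr_am h (by repeat' (first | exact AmF.id h | exact AmF.fst h | exact AmF.snd h | refine AF.fst h ?_ | refine AF.snd h ?_ | refine AmF.pair h ?_ ?_ | (refine AmF.const h _ ?_; assumption) | refine AmF.prod h ?_ ?_)) hd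
    have hx : AmF M (fun q : (((α × ZFSet.{0} × ZFSet.{0}) × ZFSet.{0}) × ZFSet.{0}) × ZFSet.{0} =>
        q.1.1.2) := by repeat' (first | exact AmF.id h | exact AmF.fst h | exact AmF.snd h | refine AF.fst h ?_ | refine AF.snd h ?_ | refine AmF.pair h ?_ ?_ | (refine AmF.const h _ ?_; assumption) | refine AmF.prod h ?_ ?_)
    have hp : AmF M (fun q : (((α × ZFSet.{0} × ZFSet.{0}) × ZFSet.{0}) × ZFSet.{0}) × ZFSet.{0} =>
        q.1.1.1.1) := by repeat' (first | exact AmF.id h | exact AmF.fst h | exact AmF.snd h | refine AF.fst h ?_ | refine AF.snd h ?_ | refine AmF.pair h ?_ ?_ | (refine AmF.const h _ ?_; assumption) | refine AmF.prod h ?_ ?_)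
    exact hH.comp h (hp.prod h (hx.prod h hr))

section
variable {D : α → ZFSet.{0} → ZFSet.{0}} {H : α → ZFSet.{0} → ZFSet.{0} → ZFSet.{0}}
  {F : α → ZFSet.{0} → ZFSet.{0}}

theorem AttD.val (h : IsInner M) {p : α}
    (hDt : ∀ t : ZFSet.{0}, t.IsTransitive → ∀ x ∈ t, D p x ⊆ t)
    (hDr : ∀ x, ∀ y ∈ D p x, y.rank < x.rank)
    (hF : ∀ x ∈ M, F p x = H p x (gr (F p) (D p x))) {t g : ZFSet.{0}} (hg : g ∈ M)
    (hA : AttD D H p t g) : ∀ x ∈ t, ∀ y, ZFSet.pair x y ∈ g → y = F p x := by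
  intro x
  induction hr : x.rank using WellFoundedLT.induction generalizing x with
  | ind r ih =>
    intro hx y hy
    have hyM : ZFSet.pair x y ∈ M := h.trans g hg _ hy
    have hxM : x ∈ M := ((pm h).1 hyM).1
    have h1 := hA.2.2 x hx x y hy rfl
    rw [h1, hF x hxM]
    congr 1
    ext z
    rw [mem_restr, mem_gr]
    constructor
    · rintro ⟨u, hu, v, hv, rfl⟩
      have hut : u ∈ t := hDt t hA.1 x hx hu
      refine ⟨u, hu, ?_⟩
      rw [← ih u.rank (hr ▸ hDr x u hu) u rfl hut v hv]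
    · rintro ⟨u, hu, rfl⟩
      have hut : u ∈ t := hDt t hA.1 x hx hu
      obtain ⟨a, v, hvg, rfl⟩ := hA.2.1 u hut
      have h2 := ih a.rank (hr ▸ hDr x a hu) a rfl hut v hvg
      rw [← h2]
      exact ⟨a, hu, v, hvg, rfl⟩

theorem AttD.self (h : IsInner M) {p : α}
    (hDt : ∀ t : ZFSet.{0}, t.IsTransitive → ∀ x ∈ t, D p x ⊆ t)
    (hDr : ∀ x, ∀ y ∈ D p x, y.rank < x.rank)
    (hF : ∀ x ∈ M, F p x = H p x (gr (F p) (D p x))) {t g : ZFSet.{0}} (hg : g ∈ M)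
    (hA : AttD D H p t g) {x : ZFSet.{0}} (hx : x ∈ t) : ZFSet.pair x (F p x) ∈ g := by
  obtain ⟨a, y, hy, rfl⟩ := hA.2.1 x hx
  rwa [← AttD.val h hDt hDr hF hg hA a hx y hy]

/-- existence of attempts -/
theorem exists_att (h : IsInner M)
    (hD : AmF M (fun q : α × ZFSet.{0} => D q.1 q.2))
    (hH : AmF M (fun q : α × ZFSet.{0} × ZFSet.{0} => H q.1 q.2.1 q.2.2)) {p : α}
    (hpM : code p ∈ M)
    (hDt : ∀ t : ZFSet.{0}, t.IsTransitive → ∀ x ∈ t, D p x ⊆ t)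
    (hDr : ∀ x, ∀ y ∈ D p x, y.rank < x.rank)
    (hF : ∀ x ∈ M, F p x = H p x (gr (F p) (D p x))) (x : ZFSet.{0}) (hx : x ∈ M) :
    ∃ t ∈ M, ∃ g ∈ M, AttD D H p t g ∧ x ∈ t := by
  induction x using ZFSet.inductionOn with
  | h x ih => ?_
  classical
  obtain ⟨b, hb, -, hsb⟩ := h.collect x (fun y w => ∃ t g, w = ZFSet.pair t g ∧
    AttD D H p t g ∧ y ∈ t)
  have hq : ∀ y ∈ x, ∃ t g, ZFSet.pair t g ∈ b ∧ AttD D H p t g ∧ y ∈ t := by
    intro y hy
    obtain ⟨t, ht, g, hg, h1, h2⟩ := ih y hy (h.trans x hx y hy)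
    obtain ⟨w, hw, t', g', rfl, h3, h4⟩ := hsb y hy
      ⟨ZFSet.pair t g, (pm h).2 ⟨ht, hg⟩, t, g, rfl, h1, h2⟩
    exact ⟨t', g', hw, h3, h4⟩
  have hAtt : Am M (fun q : ZFSet.{0} × ZFSet.{0} => AttD D H p q.1 q.2) :=
    (AttD.am h hD hH).comp h (f := fun q : ZFSet.{0} × ZFSet.{0} => (p, q.1, q.2))
      ((AmF.const h p hpM).prod h (by repeat' (first | exact AmF.id h | exact AmF.fst h | exact AmF.snd h | refine AF.fst h ?_ | refine AF.snd h ?_ | refine AmF.pair h ?_ ?_ | (refine AmF.const h _ ?_; assumption) | refine AmF.prod h ?_ ?_)))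
  -- `T0` : union of the domains of all attempts in `b`
  let T0 : ZFSet.{0} := ZFSet.sep (fun z => ∃ t g, ZFSet.pair t g ∈ b ∧
    (AttD D H p t g ∧ z ∈ t)) (⋃₀ (⋃₀ (⋃₀ b : ZFSet.{0}) : ZFSet.{0}))
  have hT0 : ∀ z, z ∈ T0 ↔ ∃ t g, ZFSet.pair t g ∈ b ∧ AttD D H p t g ∧ z ∈ t := by
    intro z
    constructor
    · intro hz
      exact (ZFSet.mem_sep.1 hz).2
    · rintro ⟨t, g, h1, h2, h3⟩
      refine ZFSet.mem_sep.2 ⟨?_, t, g, h1, h2, h3⟩
      refine ZFSet.mem_sUnion.2 ⟨t, ?_, h3⟩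
      refine ZFSet.mem_sUnion.2 ⟨{t}, ?_, by simp⟩
      exact ZFSet.mem_sUnion.2 ⟨ZFSet.pair t g, h1, by simp [ZFSet.pair]⟩
  let g0 : ZFSet.{0} := ZFSet.sep (fun z => ∃ t g, ZFSet.pair t g ∈ b ∧
    (AttD D H p t g ∧ z ∈ restr g t)) (⋃₀ (⋃₀ (⋃₀ b : ZFSet.{0}) : ZFSet.{0}))
  have hg0 : ∀ z, z ∈ g0 ↔ ∃ u ∈ T0, z = ZFSet.pair u (F p u) := by
    intro z
    constructor
    · intro hz
      obtain ⟨_, t, g, h1, h2, h3⟩ := ZFSet.mem_sep.1 hz
      obtain ⟨u, hu, v, hv, rfl⟩ := mem_restr.1 h3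
      have hp := (pm h).1 (h.trans b hb _ h1)
      refine ⟨u, (hT0 u).2 ⟨t, g, h1, h2, hu⟩, ?_⟩
      rw [← AttD.val h hDt hDr hF hp.2 h2 u hu v hv]
    · rintro ⟨u, hu, rfl⟩
      obtain ⟨t, g, h1, h2, h3⟩ := (hT0 u).1 hu
      have hp := (pm h).1 (h.trans b hb _ h1)
      have h4 := AttD.self h hDt hDr hF hp.2 h2 h3
      refine ZFSet.mem_sep.2 ⟨?_, t, g, h1, h2, ?_⟩
      · refine ZFSet.mem_sUnion.2 ⟨g, ?_, h4⟩
        refine ZFSet.mem_sUnion.2 ⟨{t, g}, ?_, by simp⟩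
        exact ZFSet.mem_sUnion.2 ⟨ZFSet.pair t g, h1, by simp [ZFSet.pair]⟩
      · exact mem_restr.2 ⟨u, h3, F p u, h4, rfl⟩
  have hxT0 : ∀ y ∈ x, y ∈ T0 := fun y hy => (hT0 y).2 (hq y hy)
  have hT0tr : T0.IsTransitive := by
    intro y hy z hz
    obtain ⟨t, g, h1, h2, h3⟩ := (hT0 y).1 hy
    exact (hT0 z).2 ⟨t, g, h1, h2, h2.1 y h3 hz⟩
  have hT0M : T0 ∈ M := by
    refine (AmF.sep h (α := ZFSet.{0})
      (g := fun x => (⋃₀ (⋃₀ (⋃₀ x : ZFSet.{0}) : ZFSet.{0}) : ZFSet.{0}))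
      (R := fun x z => ∃ t g, ZFSet.pair t g ∈ x ∧ (AttD D H p t g ∧ z ∈ t))
      (AmF.sUnion h (AmF.sUnion h (AmF.sUnion h (AmF.id h)))) ?_).mem b hb
    refine Am.pex h (by repeat' (first | exact AmF.id h | exact AmF.fst h | exact AmF.snd h | refine AF.fst h ?_ | refine AF.snd h ?_ | refine AmF.pair h ?_ ?_ | (refine AmF.const h _ ?_; assumption) | refine AmF.prod h ?_ ?_)) (R := fun (q : ZFSet.{0} × ZFSet.{0}) t g =>
      (AttD D H p t g ∧ q.2 ∈ t)) ?_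
    refine Am.and h (hAtt.comp h (f := fun q : ((ZFSet.{0} × ZFSet.{0}) × ZFSet.{0}) × ZFSet.{0} =>
      (q.1.2, q.2)) (by repeat' (first | exact AmF.id h | exact AmF.fst h | exact AmF.snd h | refine AF.fst h ?_ | refine AF.snd h ?_ | refine AmF.pair h ?_ ?_ | (refine AmF.const h _ ?_; assumption) | refine AmF.prod h ?_ ?_))) (Am.mem h (by repeat' (first | exact AmF.id h | exact AmF.fst h | exact AmF.snd h | refine AF.fst h ?_ | refine AF.snd h ?_ | refine AmF.pair h ?_ ?_ | (refine AmF.const h _ ?_; assumption) | refine AmF.prod h ?_ ?_)) (by repeat' (first | exact AmF.id h | exact AmF.fst h | exact AmF.snd h | refine AF.fst h ?_ | refine AF.snd h ?_ | refine AmF.pair h ?_ ?_ | (refine AmF.const h _ ?_; assumption) | refine AmF.prod h ?_ ?_)))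
  have hg0M : g0 ∈ M := by
    refine (AmF.sep h (α := ZFSet.{0})
      (g := fun x => (⋃₀ (⋃₀ (⋃₀ x : ZFSet.{0}) : ZFSet.{0}) : ZFSet.{0}))
      (R := fun x z => ∃ t g, ZFSet.pair t g ∈ x ∧ (AttD D H p t g ∧ z ∈ restr g t))
      (AmF.sUnion h (AmF.sUnion h (AmF.sUnion h (AmF.id h)))) ?_).mem b hb
    refine Am.pex h (by repeat' (first | exact AmF.id h | exact AmF.fst h | exact AmF.snd h | refine AF.fst h ?_ | refine AF.snd h ?_ | refine AmF.pair h ?_ ?_ | (refine AmF.const h _ ?_; assumption) | refine AmF.prod h ?_ ?_)) (R := fun (q : ZFSet.{0} × ZFSet.{0}) t g =>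
      (AttD D H p t g ∧ q.2 ∈ restr g t)) ?_
    refine Am.and h (hAtt.comp h (f := fun q : ((ZFSet.{0} × ZFSet.{0}) × ZFSet.{0}) × ZFSet.{0} =>
      (q.1.2, q.2)) (by repeat' (first | exact AmF.id h | exact AmF.fst h | exact AmF.snd h | refine AF.fst h ?_ | refine AF.snd h ?_ | refine AmF.pair h ?_ ?_ | (refine AmF.const h _ ?_; assumption) | refine AmF.prod h ?_ ?_))) (Am.mem h (by repeat' (first | exact AmF.id h | exact AmF.fst h | exact AmF.snd h | refine AF.fst h ?_ | refine AF.snd h ?_ | refine AmF.pair h ?_ ?_ | (refine AmF.const h _ ?_; assumption) | refine AmF.prod h ?_ ?_)) (restr_am h (by repeat' (first | exact AmF.id h | exact AmF.fst h | exact AmF.snd h | refine AF.fst h ?_ | refine AF.snd h ?_ | refine AmF.pair h ?_ ?_ | (refine AmF.const h _ ?_; assumption) | refine AmF.prod h ?_ ?_)) (by repeat' (first | exact AmF.id h | exact AmF.fst h | exact AmF.snd h | refine AF.fst h ?_ | refine AF.snd h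 ?_ | refine AmF.pair h ?_ ?_ | (refine AmF.const h _ ?_; assumption) | refine AmF.prod h ?_ ?_))))
  have htr : (T0 ∪ {x}).IsTransitive := by
    intro y hy z hz
    rcases ZFSet.mem_union.1 hy with hy | hy
    · exact ZFSet.mem_union.2 (Or.inl (hT0tr y hy hz))
    · rw [ZFSet.mem_singleton] at hy
      subst hy
      exact ZFSet.mem_union.2 (Or.inl (hxT0 z hz))
  have hDx : ∀ u ∈ D p x, u ∈ T0 := by
    intro u hu
    have h1 := hDt _ htr x (by simp) hu
    rcases ZFSet.mem_union.1 h1 with h2 | h2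
    · exact h2
    · rw [ZFSet.mem_singleton] at h2
      subst h2
      exact absurd (hDr u u hu) (lt_irrefl _)
  have hgrD : restr g0 (D p x) = gr (F p) (D p x) := by
    ext z
    rw [mem_restr, mem_gr]
    constructor
    · rintro ⟨u, hu, v, hv, rfl⟩
      obtain ⟨u', hu', h1⟩ := (hg0 _).1 hv
      obtain ⟨rfl, rfl⟩ := pair_inj.1 h1
      exact ⟨u, hu, rfl⟩
    · rintro ⟨u, hu, rfl⟩
      exact ⟨u, hu, F p u, (hg0 _).2 ⟨u, hDx u hu, rfl⟩, rfl⟩
  have hDpx : D p x ∈ M :=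
    (hD.comp h (f := fun y : ZFSet.{0} => (p, y)) ((AmF.const h p hpM).prod h (AmF.id h))).mem x hx
  have hFx : F p x ∈ M := by
    rw [hF x hx, ← hgrD]
    refine hH.mem (p, x, restr g0 (D p x)) ?_
    rw [code_mk, code_mk]
    refine h.pair_mem hpM (h.pair_mem hx ?_)
    exact (restr_am h (AmF.const h g0 hg0M) (AmF.id h (α := ZFSet.{0}))).mem (D p x) hDpx
  have hTM : T0 ∪ {x} ∈ M := h.union_mem hT0M (h.singleton_mem hx)
  have hgM : g0 ∪ {ZFSet.pair x (F p x)} ∈ M :=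
    h.union_mem hg0M (h.singleton_mem (h.pair_mem hx hFx))
  have hgg : ∀ z, z ∈ g0 ∪ {ZFSet.pair x (F p x)} ↔ ∃ u ∈ T0 ∪ {x}, z = ZFSet.pair u (F p u) := by
    intro z
    rw [ZFSet.mem_union, hg0 z, ZFSet.mem_singleton]
    constructor
    · rintro (⟨u, hu, rfl⟩ | rfl)
      · exact ⟨u, ZFSet.mem_union.2 (Or.inl hu), rfl⟩
      · exact ⟨x, by simp, rfl⟩
    · rintro ⟨u, hu, rfl⟩
      rcases ZFSet.mem_union.1 hu with h | h
      · exact Or.inl ⟨u, h, rfl⟩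
      · rw [ZFSet.mem_singleton] at h
        subst h
        exact Or.inr rfl
  refine ⟨T0 ∪ {x}, hTM, g0 ∪ {ZFSet.pair x (F p x)}, hgM, ⟨htr, ?_, ?_⟩, by simp⟩
  · intro u hu
    exact ⟨u, F p u, (hgg _).2 ⟨u, hu, rfl⟩, rfl⟩
  · intro u hu a y h1 hau
    subst hau
    obtain ⟨u', _, h2⟩ := (hgg _).1 h1
    obtain ⟨rfl, rfl⟩ := pair_inj.1 h2
    rw [hF a (h.trans _ hTM a hu)]
    congr 1
    -- the restriction to `D a`
    have hDu : ∀ v ∈ D p a, v ∈ T0 ∪ {x} := fun v hv => hDt _ htr a hu hv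
    ext z
    rw [mem_restr, mem_gr]
    constructor
    · rintro ⟨v, hv, rfl⟩
      exact ⟨v, hv, F p v, (hgg _).2 ⟨v, hDu v hv, rfl⟩, rfl⟩
    · rintro ⟨v, hv, w, hw, rfl⟩
      obtain ⟨v', hv', h3⟩ := (hgg _).1 hw
      obtain ⟨rfl, rfl⟩ := pair_inj.1 h3
      exact ⟨v, hv, rfl⟩

/-- The recursion theorem: `D p x` is local and rank-decreasing. -/
theorem AmF.recD (h : IsInner M)
    (hD : AmF M (fun q : α × ZFSet.{0} => D q.1 q.2))
    (hH : AmF M (fun q : α × ZFSet.{0} × ZFSet.{0} => H q.1 q.2.1 q.2.2))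
    (hDt : ∀ p : α, ∀ t : ZFSet.{0}, t.IsTransitive → ∀ x ∈ t, D p x ⊆ t)
    (hDr : ∀ p : α, ∀ x, ∀ y ∈ D p x, y.rank < x.rank)
    (hF : ∀ p : α, Cod.code p ∈ M → ∀ x ∈ M, F p x = H p x (Pool.Agent.Helper17.CL.gr (F p) (D p x))) :
    AmF M (fun q : α × ZFSet.{0} => F q.1 q.2) := by
  have hmem : ∀ p : α, Cod.code p ∈ M → ∀ x ∈ M, ∃ t ∈ M, ∃ g ∈ M, AttD D H p t g ∧ x ∈ t :=
    fun p hp x hx => exists_att h hD hH hp (hDt p) (hDr p) (hF p hp) x hx
  refine AmF.mk' ?_ ?_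
  · rintro ⟨p, x⟩ hpx
    obtain ⟨hp, hx⟩ := (code_mem_prod h).1 hpx
    obtain ⟨t, ht, g, hg, h1, h2⟩ := hmem p hp x hx
    exact ((pm h).1 (h.trans g hg _ (AttD.self h (hDt p) (hDr p) (hF p hp) hg h1 h2))).2
  · have h0 : Am M (fun q : (α × ZFSet.{0}) × ZFSet.{0} => ∃ t : ZFSet.{0}, Cod.code t ∈ M ∧
        ∃ g : ZFSet.{0}, Cod.code g ∈ M ∧ (AttD D H q.1.1 t g ∧ q.1.2 ∈ t ∧
          ZFSet.pair q.1.2 q.2 ∈ g)) := by
      refine Am.ex h (R := fun (q : (α × ZFSet.{0}) × ZFSet.{0}) (t : ZFSet.{0}) =>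
        ∃ g : ZFSet.{0}, Cod.code g ∈ M ∧ (AttD D H q.1.1 t g ∧ q.1.2 ∈ t ∧
          ZFSet.pair q.1.2 q.2 ∈ g)) ?_
      refine Am.ex h (R := fun (q : ((α × ZFSet.{0}) × ZFSet.{0}) × ZFSet.{0}) (g : ZFSet.{0}) =>
        (AttD D H q.1.1.1 q.2 g ∧ q.1.1.2 ∈ q.2 ∧ ZFSet.pair q.1.1.2 q.1.2 ∈ g)) ?_
      refine Am.and h ((AttD.am h hD hH).comp h
        (f := fun q : (((α × ZFSet.{0}) × ZFSet.{0}) × ZFSet.{0}) × ZFSet.{0} =>
          (q.1.1.1.1, q.1.2, q.2)) (by repeat' (first | exact AmF.id h | exact AmF.fst h | exact AmF.snd h | refine AF.fst h ?_ | refine AF.snd h ?_ | refine AmF.pair h ?_ ?_ | (refine AmF.const h _ ?_; assumption) | refine AmF.prod h ?_ ?_))) ?_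
      exact Am.and h (Am.mem h (by repeat' (first | exact AmF.id h | exact AmF.fst h | exact AmF.snd h | refine AF.fst h ?_ | refine AF.snd h ?_ | refine AmF.pair h ?_ ?_ | (refine AmF.const h _ ?_; assumption) | refine AmF.prod h ?_ ?_)) (by repeat' (first | exact AmF.id h | exact AmF.fst h | exact AmF.snd h | refine AF.fst h ?_ | refine AF.snd h ?_ | refine AmF.pair h ?_ ?_ | (refine AmF.const h _ ?_; assumption) | refine AmF.prod h ?_ ?_))) (Am.mem h (by repeat' (first | exact AmF.id h | exact AmF.fst h | exact AmF.snd h | refine AF.fst h ?_ | refine AF.snd h ?_ | refine AmF.pair h ?_ ?_ | (refine AmF.const h _ ?_; assumption) | refine AmF.prod h ?_ ?_)) (by repeat' (first | exact AmF.id h | exact AmF.fst h | exact AmF.snd h | refine AF.fst h ?_ | refine AF.snd h ?_ | refine AmF.pair h ?_ ?_ | (refine AmF.const h _ ?_; assumption) | refine AmF.prod h ?_ ?_)))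
    refine h0.congr h ?_
    rintro ⟨⟨p, x⟩, y⟩ hxy
    obtain ⟨hpx, hy⟩ := (code_mem_prod h).1 hxy
    obtain ⟨hp, hx⟩ := (code_mem_prod h).1 hpx
    constructor
    · intro hFy
      have hFy' : F p x = y := hFy
      obtain ⟨t, ht, g, hg, h1, h2⟩ := hmem p hp x hx
      refine ⟨t, ht, g, hg, h1, h2, ?_⟩
      have := AttD.self h (hDt p) (hDr p) (hF p hp) hg h1 h2
      rw [hFy'] at this
      exact this
    · rintro ⟨t, ht, g, hg, h1, h2, h3⟩
      exact (AttD.val h (hDt p) (hDr p) (hF p hp) hg h1 x h2 y h3).symm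

end

end Pool.Agent.Helper33.CL
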