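import Pool.Agent.Helper17.CL.ListC

/-!
# Project CL, forcing part: projection-style closure lemmas
-/

set_option autoImplicit false

namespace Pool.Agent.Helper33.CL

open ZFSet Pool.Agent.Helper17.CL

universe u₁ u₂ u₃

variable {M : Set ZFSet.{0}} (h : IsInner M)
variable {α : Type u₁} {β : Type u₂} {γ : Type u₃} [Cod α] [Cod β] [Cod γ]

include h

theorem AF.fst {f : α → β × γ} (hf : AmF M f) : AmF M (fun x => (f x).1) :=
  (AmF.fst h).comp h hf

theorem AF.snd {f : α → β × γ} (hf : AmF M f) : AmF M (fun x => (f x).2) :=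
  (AmF.snd h).comp h hf

theorem pm {x y : ZFSet.{0}} : ZFSet.pair x y ∈ M ↔ x ∈ M ∧ y ∈ M := h.pair_mem_iff

theorem bound (s : ZFSet.{0}) (hs : ∀ z ∈ s, z ∈ M) : ∃ u ∈ M, u.IsTransitive ∧ s ⊆ u := by
  obtain ⟨u, h1, h2, h3, _⟩ := h.cof s hs
  exact ⟨u, h1, h2, h3⟩

/-! ### quantifiers over pairs in a set -/

theorem Am.ex' {R : α → β → Prop} (hR : Am M (fun p : α × β => R p.1 p.2))
    (hb : ∀ x : α, code x ∈ M → ∀ y : β, R x y → code y ∈ M) : Am M (fun x => ∃ y, R x y) := by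
  refine (Am.ex h (R := R) hR).congr h ?_
  intro x hx
  constructor
  · rintro ⟨y, h'⟩
    exact ⟨y, hb x hx y h', h'⟩
  · rintro ⟨y, _, h'⟩
    exact ⟨y, h'⟩

theorem Am.pex {f : α → ZFSet.{0}} {R : α → ZFSet.{0} → ZFSet.{0} → Prop}
    (hf : AmF M f)
    (hR : Am M (fun q : (α × ZFSet.{0}) × ZFSet.{0} => R q.1.1 q.1.2 q.2)) :
    Am M (fun x => ∃ a b, ZFSet.pair a b ∈ f x ∧ R x a b) := by
  have h0 : Am M (fun x => ∃ a : ZFSet.{0}, code a ∈ M ∧ ∃ b : ZFSet.{0}, code b ∈ M ∧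
      (ZFSet.pair a b ∈ f x ∧ R x a b)) := by
    refine Am.ex h (R := fun (x : α) (a : ZFSet.{0}) => ∃ b : ZFSet.{0}, code b ∈ M ∧
      (ZFSet.pair a b ∈ f x ∧ R x a b)) ?_
    refine Am.ex h (R := fun (q : α × ZFSet.{0}) (b : ZFSet.{0}) =>
      (ZFSet.pair q.2 b ∈ f q.1 ∧ R q.1 q.2 b)) ?_
    refine Am.and h (Am.mem h ?_ ?_) hR
    · exact (by repeat' (first | exact AmF.id h | exact AmF.fst h | exact AmF.snd h | refine AF.fst h ?_ | refine AF.snd h ?_ | refine AmF.pair h ?_ ?_ | (refine AmF.const h _ ?_; assumption) | refine AmF.prod h ?_ ?_))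
    · exact hf.comp h (by repeat' (first | exact AmF.id h | exact AmF.fst h | exact AmF.snd h | refine AF.fst h ?_ | refine AF.snd h ?_ | refine AmF.pair h ?_ ?_ | (refine AmF.const h _ ?_; assumption) | refine AmF.prod h ?_ ?_))
  refine h0.congr h ?_
  intro x hx
  constructor
  · rintro ⟨a, b, h1, h'⟩
    have h3 : ZFSet.pair a b ∈ M := h.trans _ (hf.mem x hx) _ h1
    have h2 := (pm h).1 h3
    exact ⟨a, h2.1, b, h2.2, h1, h'⟩
  · rintro ⟨a, _, b, _, h'⟩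
    exact ⟨a, b, h'⟩

theorem Am.pall {f : α → ZFSet.{0}} {R : α → ZFSet.{0} → ZFSet.{0} → Prop}
    (hf : AmF M f)
    (hR : Am M (fun q : (α × ZFSet.{0}) × ZFSet.{0} => R q.1.1 q.1.2 q.2)) :
    Am M (fun x => ∀ a b, ZFSet.pair a b ∈ f x → R x a b) := by
  have h0 := Am.not h (Am.pex h (R := fun x a b => ¬ R x a b) hf (Am.not h hR))
  refine h0.congr h ?_
  intro x _
  push Not
  rfl

/-- amenability can be checked locally -/
theorem Am.local {R : α → Prop}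
    (hl : ∀ t ∈ M, t.IsTransitive → ∃ S : α → Prop, Am M S ∧ ∀ x : α, code x ∈ t → (R x ↔ S x)) :
    Am M R := by
  intro a ha
  obtain ⟨t, ht, htr, hat⟩ := bound h a (fun x hx => h.trans a ha x hx)
  obtain ⟨S, hS, hRS⟩ := hl t ht htr
  have h1 := hS a ha
  refine mem_of_eq ?_ h1
  ext x
  rw [ZFSet.mem_sep, ZFSet.mem_sep]
  constructor
  · rintro ⟨hx, y, rfl, hy⟩
    exact ⟨hx, y, rfl, (hRS y (hat hx)).1 hy⟩
  · rintro ⟨hx, y, rfl, hy⟩
    exact ⟨hx, y, rfl, (hRS y (hat hx)).2 hy⟩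

end Pool.Agent.Helper33.CL
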