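import Pool.Agent.Helper33.CL.Names

/-!
# Project CL, forcing part: generic filters, the truth lemma for equality, forceable relations
-/

set_option autoImplicit false

namespace Pool.Agent.Helper33.CL

open ZFSet Pool.Agent.Helper17.CL

universe u₁ u₂ u₃

/-- a preorder as a pair of sets -/
structure IsPo (P le : ZFSet.{0}) : Prop where
  refl : ∀ p ∈ P, ZFSet.pair p p ∈ le
  trans : ∀ p q r, ZFSet.pair p q ∈ le → ZFSet.pair q r ∈ le → ZFSet.pair p r ∈ le
  fld : ∀ p q, ZFSet.pair p q ∈ le → p ∈ P ∧ q ∈ P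

/-- `G` is an `M`-generic filter on `(P, le)`. -/
structure IsGen (M : Set ZFSet.{0}) (P le : ZFSet.{0}) (G : Set ZFSet.{0}) : Prop where
  sub : ∀ p ∈ G, p ∈ P
  up : ∀ p ∈ G, ∀ q ∈ P, ZFSet.pair p q ∈ le → q ∈ G
  dir : ∀ p ∈ G, ∀ q ∈ G, ∃ r ∈ G, ZFSet.pair r p ∈ le ∧ ZFSet.pair r q ∈ le
  meets : ∀ D ∈ M, (∀ p ∈ P, ∃ q ∈ D, q ∈ P ∧ ZFSet.pair q p ∈ le) → ∃ p ∈ G, p ∈ D

variable {M : Set ZFSet.{0}} {P le : ZFSet.{0}} {G : Set ZFSet.{0}}
variable {α : Type u₁} {γ : Type u₃} [Cod α] [Cod γ]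

theorem IsGen.nonempty (hG : IsGen M P le G) (hP : P ∈ M) (hpo : IsPo P le) : ∃ p, p ∈ G := by
  obtain ⟨p, hp, _⟩ := hG.meets P hP (fun p hp => ⟨p, hp, hp, hpo.refl p hp⟩)
  exact ⟨p, hp⟩

/-- Meeting amenable predicates which are dense below a condition of the filter. -/
theorem IsGen.meets_below (h : IsInner M) (hG : IsGen M P le G) (hP : P ∈ M) (hle : le ∈ M)
    (hpo : IsPo P le) {R : ZFSet.{0} → Prop} (hR : Am M R) {p : ZFSet.{0}} (hp : p ∈ G)
    (hd : ∀ q ∈ P, ZFSet.pair q p ∈ le → ∃ r ∈ P, ZFSet.pair r q ∈ le ∧ R r) :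
    ∃ r ∈ G, ZFSet.pair r p ∈ le ∧ R r := by
  have hpM : p ∈ M := h.trans P hP p (hG.sub p hp)
  -- the set of the conditions which are below `p` and satisfy `R`, or are incompatible with `p`
  have h1 : ZFSet.sep (fun r : ZFSet.{0} => (ZFSet.pair r p ∈ le ∧ R r) ∨
      ∀ s ∈ P, (ZFSet.pair s r ∈ le → ¬ ZFSet.pair s p ∈ le)) P ∈ M := by
    refine (AmF.sep h (α := ZFSet.{0}) (g := fun x => x)
      (R := fun _ r => (ZFSet.pair r p ∈ le ∧ R r) ∨
      ∀ s ∈ P, (ZFSet.pair s r ∈ le → ¬ ZFSet.pair s p ∈ le)) (AmF.id h) ?_).mem P hP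
    refine Am.or h (Am.and h (Am.mem h (by repeat' (first | exact AmF.id h | exact AmF.fst h | exact AmF.snd h | refine AF.fst h ?_ | refine AF.snd h ?_ | refine AmF.pair h ?_ ?_ | (refine AmF.const h _ ?_; assumption) | refine AmF.prod h ?_ ?_)) (by repeat' (first | exact AmF.id h | exact AmF.fst h | exact AmF.snd h | refine AF.fst h ?_ | refine AF.snd h ?_ | refine AmF.pair h ?_ ?_ | (refine AmF.const h _ ?_; assumption) | refine AmF.prod h ?_ ?_))) (hR.comp h (AmF.snd h))) ?_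
    refine Am.ball h (by repeat' (first | exact AmF.id h | exact AmF.fst h | exact AmF.snd h | refine AF.fst h ?_ | refine AF.snd h ?_ | refine AmF.pair h ?_ ?_ | (refine AmF.const h _ ?_; assumption) | refine AmF.prod h ?_ ?_)) (R := fun (q : ZFSet.{0} × ZFSet.{0}) s =>
      (ZFSet.pair s q.2 ∈ le → ¬ ZFSet.pair s p ∈ le)) ?_
    exact Am.imp h (Am.mem h (by repeat' (first | exact AmF.id h | exact AmF.fst h | exact AmF.snd h | refine AF.fst h ?_ | refine AF.snd h ?_ | refine AmF.pair h ?_ ?_ | (refine AmF.const h _ ?_; assumption) | refine AmF.prod h ?_ ?_)) (by repeat' (first | exact AmF.id h | exact AmF.fst h | exact AmF.snd h | refine AF.fst h ?_ | refine AF.snd h ?_ | refine AmF.pair h ?_ ?_ | (refine AmF.const h _ ?_; assumption) | refine AmF.prod h ?_ ?_))) (Am.not h (Am.mem h (by repeat' (first | exact AmF.id h | exact AmF.fst h | exact AmF.snd h | refine AF.fst h ?_ | refine AF.snd h ?_ | refine AmF.pair h ?_ ?_ | (refine AmF.const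 h _ ?_; assumption) | refine AmF.prod h ?_ ?_)) (by repeat' (first | exact AmF.id h | exact AmF.fst h | exact AmF.snd h | refine AF.fst h ?_ | refine AF.snd h ?_ | refine AmF.pair h ?_ ?_ | (refine AmF.const h _ ?_; assumption) | refine AmF.prod h ?_ ?_))))
  obtain ⟨r, hr, hrD⟩ := hG.meets _ h1 (by
    intro q hq
    by_cases hc : ∃ s ∈ P, ZFSet.pair s q ∈ le ∧ ZFSet.pair s p ∈ le
    · obtain ⟨s, hs, hsq, hsp⟩ := hc
      obtain ⟨r, hr, hrs, hRr⟩ := hd s hs hsp
      exact ⟨r, ZFSet.mem_sep.2 ⟨hr, Or.inl ⟨hpo.trans _ _ _ hrs hsp, hRr⟩⟩, hr,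
        hpo.trans _ _ _ hrs hsq⟩
    · push Not at hc
      exact ⟨q, ZFSet.mem_sep.2 ⟨hq, Or.inr hc⟩, hq, hpo.refl q hq⟩)
  obtain ⟨_, hrD⟩ := ZFSet.mem_sep.1 hrD
  rcases hrD with h2 | h2
  · exact ⟨r, hr, h2.1, h2.2⟩
  · exfalso
    obtain ⟨s, hs, h3, h4⟩ := hG.dir r hr p hp
    exact h2 s (hG.sub s hs) h3 h4

theorem FE_mono (hpo : IsPo P le) {σ τ p q : ZFSet.{0}} (hqp : ZFSet.pair q p ∈ le)
    (hF : FE P le σ τ p) : FE P le σ τ q := by
  rw [FE] at hF ⊢
  exact ⟨fun π s h1 r hr hrq hrs => hF.1 π s h1 r hr (hpo.trans _ _ _ hrq hqp) hrs,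
    fun π s h1 r hr hrq hrs => hF.2 π s h1 r hr (hpo.trans _ _ _ hrq hqp) hrs⟩

/-- Truth lemma for equality. -/
theorem FE_truth (h : IsInner M) (hG : IsGen M P le G) (hP : P ∈ M) (hle : le ∈ M)
    (hpo : IsPo P le) : ∀ σ ∈ M, ∀ τ ∈ M, (val G σ = val G τ ↔ ∃ p ∈ G, FE P le σ τ p) := by
  intro σ
  induction hr : σ.rank using WellFoundedLT.induction generalizing σ with
  | ind r ih =>
    intro hσ τ hτ
    have ih' : ∀ π s, ZFSet.pair π s ∈ σ → ∀ τ ∈ M,
        (val G π = val G τ ↔ ∃ p ∈ G, FE P le π τ p) := by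
      intro π s hπ τ hτ
      have hπM : π ∈ M := ((pm h).1 (h.trans σ hσ _ hπ)).1
      exact ih π.rank (hr ▸ rank_fst_lt hπ) π rfl hπM τ hτ
    have hσfst : ∀ π s, ZFSet.pair π s ∈ σ → π ∈ M := fun π s hπ =>
      ((pm h).1 (h.trans σ hσ _ hπ)).1
    have hτfst : ∀ π s, ZFSet.pair π s ∈ τ → π ∈ M := fun π s hπ =>
      ((pm h).1 (h.trans τ hτ _ hπ)).1
    constructor
    · intro heq
      -- A: some element of σ is not matched; B: some element of τ is not matched
      have hdef : ∃ R : ZFSet.{0} → Prop, Am M R ∧ ∀ p ∈ P, (R p ↔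
          (FE P le σ τ p ∨
          (∃ π s, ZFSet.pair π s ∈ σ ∧ (ZFSet.pair p s ∈ le ∧ ∀ π' s', ZFSet.pair π' s' ∈ τ →
            ∀ r ∈ P, (ZFSet.pair r p ∈ le → (ZFSet.pair r s' ∈ le → ¬ FE P le π π' r)))) ∨
          (∃ π' s', ZFSet.pair π' s' ∈ τ ∧ (ZFSet.pair p s' ∈ le ∧ ∀ π s, ZFSet.pair π s ∈ σ →
            ∀ r ∈ P, (ZFSet.pair r p ∈ le → (ZFSet.pair r s ∈ le → ¬ FE P le π π' r)))))) := by
        refine ⟨fun p => ((p ∈ P ∧ FE P le σ τ p) ∨
          ((∃ π s, ZFSet.pair π s ∈ σ ∧ (ZFSet.pair p s ∈ le ∧ ∀ π' s', ZFSet.pair π' s' ∈ τ →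
            ∀ r ∈ P, (ZFSet.pair r p ∈ le → (ZFSet.pair r s' ∈ le → ¬ (r ∈ P ∧ FE P le π π' r))))) ∨
          (∃ π' s', ZFSet.pair π' s' ∈ τ ∧ (ZFSet.pair p s' ∈ le ∧ ∀ π s, ZFSet.pair π s ∈ σ →
            ∀ r ∈ P, (ZFSet.pair r p ∈ le → (ZFSet.pair r s ∈ le →
              ¬ (r ∈ P ∧ FE P le π π' r))))))), ?_, ?_⟩
        · refine Am.or h (FE_am h hP hle (by repeat' (first | exact AmF.id h | exact AmF.fst h | exact AmF.snd h | refine AF.fst h ?_ | refine AF.snd h ?_ | refine AmF.pair h ?_ ?_ | (refine AmF.const h _ ?_; assumption) | refine AmF.prod h ?_ ?_)) (by repeat' (first | exact AmF.id h | exact AmF.fst h | exact AmF.snd h | refine AF.fst h ?_ | refine AF.snd h ?_ | refine AmF.pair h ?_ ?_ | (refine AmF.const h _ ?_; assumption) | refine AmF.prod h ?_ ?_)) (by repeat' (first | exact AmF.id h | exact AmF.fst h | exact AmF.snd h | refine AF.fst h ?_ | refine AF.snd h ?_ | refine AmF.pair h ?_ ?_ | (refine AmF.const h _ ?_; assumption)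 | refine AmF.prod h ?_ ?_))) (Am.or h ?_ ?_)
          · refine Am.pex h (by repeat' (first | exact AmF.id h | exact AmF.fst h | exact AmF.snd h | refine AF.fst h ?_ | refine AF.snd h ?_ | refine AmF.pair h ?_ ?_ | (refine AmF.const h _ ?_; assumption) | refine AmF.prod h ?_ ?_)) (R := fun (p : ZFSet.{0}) π s =>
              (ZFSet.pair p s ∈ le ∧ ∀ π' s', ZFSet.pair π' s' ∈ τ →
              ∀ r ∈ P, (ZFSet.pair r p ∈ le → (ZFSet.pair r s' ∈ le →
                ¬ (r ∈ P ∧ FE P le π π' r))))) ?_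
            refine Am.and h (Am.mem h (by repeat' (first | exact AmF.id h | exact AmF.fst h | exact AmF.snd h | refine AF.fst h ?_ | refine AF.snd h ?_ | refine AmF.pair h ?_ ?_ | (refine AmF.const h _ ?_; assumption) | refine AmF.prod h ?_ ?_)) (by repeat' (first | exact AmF.id h | exact AmF.fst h | exact AmF.snd h | refine AF.fst h ?_ | refine AF.snd h ?_ | refine AmF.pair h ?_ ?_ | (refine AmF.const h _ ?_; assumption) | refine AmF.prod h ?_ ?_))) ?_
            refine Am.pall h (by repeat' (first | exact AmF.id h | exact AmF.fst h | exact AmF.snd h | refine AF.fst h ?_ | refine AF.snd h ?_ | refine AmF.pair h ?_ ?_ | (refine AmF.const h _ ?_; assumption) | refine AmF.prod h ?_ ?_)) (R := fun (q : (ZFSet.{0} × ZFSet.{0}) × ZFSet.{0}) π' s' =>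
              ∀ r ∈ P, (ZFSet.pair r q.1.1 ∈ le → (ZFSet.pair r s' ∈ le →
                ¬ (r ∈ P ∧ FE P le q.1.2 π' r)))) ?_
            refine Am.ball h (by repeat' (first | exact AmF.id h | exact AmF.fst h | exact AmF.snd h | refine AF.fst h ?_ | refine AF.snd h ?_ | refine AmF.pair h ?_ ?_ | (refine AmF.const h _ ?_; assumption) | refine AmF.prod h ?_ ?_)) (R := fun (q : ((((ZFSet.{0} × ZFSet.{0}) × ZFSet.{0}) ×
              ZFSet.{0}) × ZFSet.{0})) r => (ZFSet.pair r q.1.1.1.1 ∈ le →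
                (ZFSet.pair r q.2 ∈ le → ¬ (r ∈ P ∧ FE P le q.1.1.1.2 q.1.2 r)))) ?_
            refine Am.imp h (Am.mem h (by repeat' (first | exact AmF.id h | exact AmF.fst h | exact AmF.snd h | refine AF.fst h ?_ | refine AF.snd h ?_ | refine AmF.pair h ?_ ?_ | (refine AmF.const h _ ?_; assumption) | refine AmF.prod h ?_ ?_)) (by repeat' (first | exact AmF.id h | exact AmF.fst h | exact AmF.snd h | refine AF.fst h ?_ | refine AF.snd h ?_ | refine AmF.pair h ?_ ?_ | (refine AmF.const h _ ?_; assumption) | refine AmF.prod h ?_ ?_)))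
              (Am.imp h (Am.mem h (by repeat' (first | exact AmF.id h | exact AmF.fst h | exact AmF.snd h | refine AF.fst h ?_ | refine AF.snd h ?_ | refine AmF.pair h ?_ ?_ | (refine AmF.const h _ ?_; assumption) | refine AmF.prod h ?_ ?_)) (by repeat' (first | exact AmF.id h | exact AmF.fst h | exact AmF.snd h | refine AF.fst h ?_ | refine AF.snd h ?_ | refine AmF.pair h ?_ ?_ | (refine AmF.const h _ ?_; assumption) | refine AmF.prod h ?_ ?_))) (Am.not h ?_))
            exact FE_am h hP hle (by repeat' (first | exact AmF.id h | exact AmF.fst h | exact AmF.snd h | refine AF.fst h ?_ | refine AF.snd h ?_ | refine AmF.pair h ?_ ?_ | (refine AmF.const h _ ?_; assumption) | refine AmF.prod h ?_ ?_)) (by repeat' (first | exact AmF.id h | exact AmF.fst h | exact AmF.snd h | refine AF.fst h ?_ | refine AF.snd h ?_ | refine AmF.pair h ?_ ?_ | (refine AmF.const h _ ?_; assumption) | refine AmF.prod h ?_ ?_)) (by repeat' (first | exact AmF.id h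 | exact AmF.fst h | exact AmF.snd h | refine AF.fst h ?_ | refine AF.snd h ?_ | refine AmF.pair h ?_ ?_ | (refine AmF.const h _ ?_; assumption) | refine AmF.prod h ?_ ?_))
          · refine Am.pex h (by repeat' (first | exact AmF.id h | exact AmF.fst h | exact AmF.snd h | refine AF.fst h ?_ | refine AF.snd h ?_ | refine AmF.pair h ?_ ?_ | (refine AmF.const h _ ?_; assumption) | refine AmF.prod h ?_ ?_)) (R := fun (p : ZFSet.{0}) π' s' =>
              (ZFSet.pair p s' ∈ le ∧ ∀ π s, ZFSet.pair π s ∈ σ →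
              ∀ r ∈ P, (ZFSet.pair r p ∈ le → (ZFSet.pair r s ∈ le →
                ¬ (r ∈ P ∧ FE P le π π' r))))) ?_
            refine Am.and h (Am.mem h (by repeat' (first | exact AmF.id h | exact AmF.fst h | exact AmF.snd h | refine AF.fst h ?_ | refine AF.snd h ?_ | refine AmF.pair h ?_ ?_ | (refine AmF.const h _ ?_; assumption) | refine AmF.prod h ?_ ?_)) (by repeat' (first | exact AmF.id h | exact AmF.fst h | exact AmF.snd h | refine AF.fst h ?_ | refine AF.snd h ?_ | refine AmF.pair h ?_ ?_ | (refine AmF.const h _ ?_; assumption) | refine AmF.prod h ?_ ?_))) ?_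
            refine Am.pall h (by repeat' (first | exact AmF.id h | exact AmF.fst h | exact AmF.snd h | refine AF.fst h ?_ | refine AF.snd h ?_ | refine AmF.pair h ?_ ?_ | (refine AmF.const h _ ?_; assumption) | refine AmF.prod h ?_ ?_)) (R := fun (q : (ZFSet.{0} × ZFSet.{0}) × ZFSet.{0}) π s =>
              ∀ r ∈ P, (ZFSet.pair r q.1.1 ∈ le → (ZFSet.pair r s ∈ le →
                ¬ (r ∈ P ∧ FE P le π q.1.2 r)))) ?_
            refine Am.ball h (by repeat' (first | exact AmF.id h | exact AmF.fst h | exact AmF.snd h | refine AF.fst h ?_ | refine AF.snd h ?_ | refine AmF.pair h ?_ ?_ | (refine AmF.const h _ ?_; assumption) | refine AmF.prod h ?_ ?_)) (R := fun (q : ((((ZFSet.{0} × ZFSet.{0}) × ZFSet.{0}) ×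
              ZFSet.{0}) × ZFSet.{0})) r => (ZFSet.pair r q.1.1.1.1 ∈ le →
                (ZFSet.pair r q.2 ∈ le → ¬ (r ∈ P ∧ FE P le q.1.2 q.1.1.1.2 r)))) ?_
            refine Am.imp h (Am.mem h (by repeat' (first | exact AmF.id h | exact AmF.fst h | exact AmF.snd h | refine AF.fst h ?_ | refine AF.snd h ?_ | refine AmF.pair h ?_ ?_ | (refine AmF.const h _ ?_; assumption) | refine AmF.prod h ?_ ?_)) (by repeat' (first | exact AmF.id h | exact AmF.fst h | exact AmF.snd h | refine AF.fst h ?_ | refine AF.snd h ?_ | refine AmF.pair h ?_ ?_ | (refine AmF.const h _ ?_; assumption) | refine AmF.prod h ?_ ?_)))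
              (Am.imp h (Am.mem h (by repeat' (first | exact AmF.id h | exact AmF.fst h | exact AmF.snd h | refine AF.fst h ?_ | refine AF.snd h ?_ | refine AmF.pair h ?_ ?_ | (refine AmF.const h _ ?_; assumption) | refine AmF.prod h ?_ ?_)) (by repeat' (first | exact AmF.id h | exact AmF.fst h | exact AmF.snd h | refine AF.fst h ?_ | refine AF.snd h ?_ | refine AmF.pair h ?_ ?_ | (refine AmF.const h _ ?_; assumption) | refine AmF.prod h ?_ ?_))) (Am.not h ?_))
            exact FE_am h hP hle (by repeat' (first | exact AmF.id h | exact AmF.fst h | exact AmF.snd h | refine AF.fst h ?_ | refine AF.snd h ?_ | refine AmF.pair h ?_ ?_ | (refine AmF.const h _ ?_; assumption) | refine AmF.prod h ?_ ?_)) (by repeat' (first | exact AmF.id h | exact AmF.fst h | exact AmF.snd h | refine AF.fst h ?_ | refine AF.snd h ?_ | refine AmF.pair h ?_ ?_ | (refine AmF.const h _ ?_; assumption) | refine AmF.prod h ?_ ?_)) (by repeat' (first | exact AmF.id h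 | exact AmF.fst h | exact AmF.snd h | refine AF.fst h ?_ | refine AF.snd h ?_ | refine AmF.pair h ?_ ?_ | (refine AmF.const h _ ?_; assumption) | refine AmF.prod h ?_ ?_))
        · intro p hp
          constructor
          · rintro (h1 | ⟨π, s, h1, h2, h3⟩ | ⟨π', s', h1, h2, h3⟩)
            · exact Or.inl h1.2
            · exact Or.inr (Or.inl ⟨π, s, h1, h2, fun π' s' h4 r hr h5 h6 h7 =>
                h3 π' s' h4 r hr h5 h6 ⟨hr, h7⟩⟩)
            · exact Or.inr (Or.inr ⟨π', s', h1, h2, fun π s h4 r hr h5 h6 h7 =>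
                h3 π s h4 r hr h5 h6 ⟨hr, h7⟩⟩)
          · rintro (h1 | ⟨π, s, h1, h2, h3⟩ | ⟨π', s', h1, h2, h3⟩)
            · exact Or.inl ⟨hp, h1⟩
            · exact Or.inr (Or.inl ⟨π, s, h1, h2, fun π' s' h4 r hr h5 h6 h7 =>
                h3 π' s' h4 r hr h5 h6 h7.2⟩)
            · exact Or.inr (Or.inr ⟨π', s', h1, h2, fun π s h4 r hr h5 h6 h7 =>
                h3 π s h4 r hr h5 h6 h7.2⟩)
      obtain ⟨R, hR, hRiff⟩ := hdef
      obtain ⟨p0, hp0⟩ := hG.nonempty hP hpo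
      obtain ⟨p, hp, _, hRp⟩ := IsGen.meets_below h hG hP hle hpo hR hp0 (by
        intro q hq _
        by_cases hF : FE P le σ τ q
        · exact ⟨q, hq, hpo.refl q hq, (hRiff q hq).2 (Or.inl hF)⟩
        · rw [FE, not_and_or] at hF
          rcases hF with hF | hF
          · push Not at hF
            obtain ⟨π, s, h1, r, hr, hrq, hrs, h2⟩ := hF
            refine ⟨r, hr, hrq, (hRiff r hr).2 (Or.inr (Or.inl ⟨π, s, h1, hrs, ?_⟩))⟩
            intro π' s' h3 r' hr' h4 h5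
            exact h2 r' hr' h4 π' s' h3 h5
          · push Not at hF
            obtain ⟨π', s', h1, r, hr, hrq, hrs, h2⟩ := hF
            refine ⟨r, hr, hrq, (hRiff r hr).2 (Or.inr (Or.inr ⟨π', s', h1, hrs, ?_⟩))⟩
            intro π s h3 r' hr' h4 h5
            exact h2 r' hr' h4 π s h3 h5)
      rcases (hRiff p (hG.sub p hp)).1 hRp with h1 | ⟨π, s, h1, h2, h3⟩ | ⟨π', s', h1, h2, h3⟩
      · exact ⟨p, hp, h1⟩
      · exfalso
        have hsG : s ∈ G := hG.up p hp s (hpo.fld _ _ h2).2 h2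
        have h4 : val G π ∈ val G τ := by
          rw [← heq]
          exact mem_val.2 ⟨π, s, hsG, h1, rfl⟩
        obtain ⟨π', s', hs', h5, h6⟩ := mem_val.1 h4
        obtain ⟨r, hr, h7⟩ := (ih' π s h1 π' (hτfst π' s' h5)).1 h6.symm
        obtain ⟨a, ha, h8, h9⟩ := hG.dir p hp r hr
        obtain ⟨b, hb, h10, h11⟩ := hG.dir a ha s' hs'
        exact h3 π' s' h5 b (hG.sub b hb) (hpo.trans _ _ _ h10 h8) h11
          (FE_mono hpo (hpo.trans _ _ _ h10 h9) h7)
      · exfalso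
        have hsG : s' ∈ G := hG.up p hp s' (hpo.fld _ _ h2).2 h2
        have h4 : val G π' ∈ val G σ := by
          rw [heq]
          exact mem_val.2 ⟨π', s', hsG, h1, rfl⟩
        obtain ⟨π, s, hs, h5, h6⟩ := mem_val.1 h4
        obtain ⟨r, hr, h7⟩ := (ih' π s h5 π' (hτfst π' s' h1)).1 h6
        obtain ⟨a, ha, h8, h9⟩ := hG.dir p hp r hr
        obtain ⟨b, hb, h10, h11⟩ := hG.dir a ha s hs
        exact h3 π s h5 b (hG.sub b hb) (hpo.trans _ _ _ h10 h8) h11
          (FE_mono hpo (hpo.trans _ _ _ h10 h9) h7)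
    · rintro ⟨p, hp, hF⟩
      rw [FE] at hF
      have hgen : ∀ π ∈ M, ∀ ρ ∈ M, Am M (fun r : ZFSet.{0} =>
          (∃ π' s', ZFSet.pair π' s' ∈ ρ ∧ (ZFSet.pair r s' ∈ le ∧
            (r ∈ P ∧ FE P le π π' r)))) := by
        intro π hπ ρ hρ
        refine Am.pex h (by repeat' (first | exact AmF.id h | exact AmF.fst h | exact AmF.snd h | refine AF.fst h ?_ | refine AF.snd h ?_ | refine AmF.pair h ?_ ?_ | (refine AmF.const h _ ?_; assumption) | refine AmF.prod h ?_ ?_)) (R := fun (r : ZFSet.{0}) π' s' =>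
          (ZFSet.pair r s' ∈ le ∧ (r ∈ P ∧ FE P le π π' r))) ?_
        exact Am.and h (Am.mem h (by repeat' (first | exact AmF.id h | exact AmF.fst h | exact AmF.snd h | refine AF.fst h ?_ | refine AF.snd h ?_ | refine AmF.pair h ?_ ?_ | (refine AmF.const h _ ?_; assumption) | refine AmF.prod h ?_ ?_)) (by repeat' (first | exact AmF.id h | exact AmF.fst h | exact AmF.snd h | refine AF.fst h ?_ | refine AF.snd h ?_ | refine AmF.pair h ?_ ?_ | (refine AmF.const h _ ?_; assumption) | refine AmF.prod h ?_ ?_)))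
          (FE_am h hP hle (by repeat' (first | exact AmF.id h | exact AmF.fst h | exact AmF.snd h | refine AF.fst h ?_ | refine AF.snd h ?_ | refine AmF.pair h ?_ ?_ | (refine AmF.const h _ ?_; assumption) | refine AmF.prod h ?_ ?_)) (by repeat' (first | exact AmF.id h | exact AmF.fst h | exact AmF.snd h | refine AF.fst h ?_ | refine AF.snd h ?_ | refine AmF.pair h ?_ ?_ | (refine AmF.const h _ ?_; assumption) | refine AmF.prod h ?_ ?_)) (by repeat' (first | exact AmF.id h | exact AmF.fst h | exact AmF.snd h | refine AF.fst h ?_ | refine AF.snd h ?_ | refine AmF.pair h ?_ ?_ | (refine AmF.const h _ ?_; assumption) | refine AmF.prod h ?_ ?_)))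
      ext x
      rw [mem_val, mem_val]
      constructor
      · rintro ⟨π, s, hs, h1, rfl⟩
        obtain ⟨q, hq, hqp, hqs⟩ := hG.dir p hp s hs
        obtain ⟨r, hr, hrq, π', s', h2, h3, h4, h5⟩ := IsGen.meets_below h hG hP hle hpo
          (hgen π (hσfst π s h1) τ hτ) hq (by
          intro q' hq' hq'q
          obtain ⟨r, hr, hrq, π', s', h2, h3, h4⟩ := hF.1 π s h1 q' hq'
            (hpo.trans _ _ _ hq'q hqp) (hpo.trans _ _ _ hq'q hqs)
          exact ⟨r, hr, hrq, π', s', h2, h3, hr, h4⟩)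
        refine ⟨π', s', hG.up r hr s' (hpo.fld _ _ h3).2 h3, h2, ?_⟩
        exact ((ih' π s h1 π' (hτfst π' s' h2)).2 ⟨r, hr, h5⟩).symm
      · rintro ⟨π', s', hs', h1, rfl⟩
        obtain ⟨q, hq, hqp, hqs⟩ := hG.dir p hp s' hs'
        have hR : Am M (fun r : ZFSet.{0} =>
            (∃ π s, ZFSet.pair π s ∈ σ ∧ (ZFSet.pair r s ∈ le ∧
            (r ∈ P ∧ FE P le π π' r)))) := by
          have hπ' := hτfst π' s' h1
          refine Am.pex h (by repeat' (first | exact AmF.id h | exact AmF.fst h | exact AmF.snd h | refine AF.fst h ?_ | refine AF.snd h ?_ | refine AmF.pair h ?_ ?_ | (refine AmF.const h _ ?_; assumption) | refine AmF.prod h ?_ ?_)) (R := fun (r : ZFSet.{0}) π s =>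
            (ZFSet.pair r s ∈ le ∧ (r ∈ P ∧ FE P le π π' r))) ?_
          exact Am.and h (Am.mem h (by repeat' (first | exact AmF.id h | exact AmF.fst h | exact AmF.snd h | refine AF.fst h ?_ | refine AF.snd h ?_ | refine AmF.pair h ?_ ?_ | (refine AmF.const h _ ?_; assumption) | refine AmF.prod h ?_ ?_)) (by repeat' (first | exact AmF.id h | exact AmF.fst h | exact AmF.snd h | refine AF.fst h ?_ | refine AF.snd h ?_ | refine AmF.pair h ?_ ?_ | (refine AmF.const h _ ?_; assumption) | refine AmF.prod h ?_ ?_)))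
            (FE_am h hP hle (by repeat' (first | exact AmF.id h | exact AmF.fst h | exact AmF.snd h | refine AF.fst h ?_ | refine AF.snd h ?_ | refine AmF.pair h ?_ ?_ | (refine AmF.const h _ ?_; assumption) | refine AmF.prod h ?_ ?_)) (by repeat' (first | exact AmF.id h | exact AmF.fst h | exact AmF.snd h | refine AF.fst h ?_ | refine AF.snd h ?_ | refine AmF.pair h ?_ ?_ | (refine AmF.const h _ ?_; assumption) | refine AmF.prod h ?_ ?_)) (by repeat' (first | exact AmF.id h | exact AmF.fst h | exact AmF.snd h | refine AF.fst h ?_ | refine AF.snd h ?_ | refine AmF.pair h ?_ ?_ | (refine AmF.const h _ ?_; assumption) | refine AmF.prod h ?_ ?_)))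
        obtain ⟨r, hr, hrq, π, s, h2, h3, h4, h5⟩ := IsGen.meets_below h hG hP hle hpo hR hq (by
          intro q' hq' hq'q
          obtain ⟨r, hr, hrq, π, s, h2, h3, h4⟩ := hF.2 π' s' h1 q' hq'
            (hpo.trans _ _ _ hq'q hqp) (hpo.trans _ _ _ hq'q hqs)
          exact ⟨r, hr, hrq, π, s, h2, h3, hr, h4⟩)
        refine ⟨π, s, hG.up r hr s (hpo.fld _ _ h3).2 h3, h2, ?_⟩
        exact (ih' π s h2 π' (hτfst π' s' h1)).2 ⟨r, hr, h5⟩

/-! ### forcing of membership -/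

/-- forcing of membership -/
def FM (P le : ZFSet.{0}) (σ τ p : ZFSet.{0}) : Prop :=
  ∃ π s, ZFSet.pair π s ∈ τ ∧ (ZFSet.pair p s ∈ le ∧ (p ∈ P ∧ FE P le σ π p))

theorem FM_am (h : IsInner M) (hP : P ∈ M) (hle : le ∈ M)
    {σ τ p : γ → ZFSet.{0}} (hσ : AmF M σ) (hτ : AmF M τ) (hp : AmF M p) :
    Am M (fun x => FM P le (σ x) (τ x) (p x)) := by
  have h0 : Am M (fun q : (ZFSet.{0} × ZFSet.{0}) × ZFSet.{0} => FM P le q.1.1 q.1.2 q.2) := by
    unfold FM
    refine Am.pex h (by repeat' (first | exact AmF.id h | exact AmF.fst h | exact AmF.snd h | refine AF.fst h ?_ | refine AF.snd h ?_ | refine AmF.pair h ?_ ?_ | (refine AmF.const h _ ?_; assumption) | refine AmF.prod h ?_ ?_)) (R := fun (q : (ZFSet.{0} × ZFSet.{0}) × ZFSet.{0}) π s =>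
      (ZFSet.pair q.2 s ∈ le ∧ (q.2 ∈ P ∧ FE P le q.1.1 π q.2))) ?_
    exact Am.and h (Am.mem h (by repeat' (first | exact AmF.id h | exact AmF.fst h | exact AmF.snd h | refine AF.fst h ?_ | refine AF.snd h ?_ | refine AmF.pair h ?_ ?_ | (refine AmF.const h _ ?_; assumption) | refine AmF.prod h ?_ ?_)) (by repeat' (first | exact AmF.id h | exact AmF.fst h | exact AmF.snd h | refine AF.fst h ?_ | refine AF.snd h ?_ | refine AmF.pair h ?_ ?_ | (refine AmF.const h _ ?_; assumption) | refine AmF.prod h ?_ ?_)))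
      (FE_am h hP hle (by repeat' (first | exact AmF.id h | exact AmF.fst h | exact AmF.snd h | refine AF.fst h ?_ | refine AF.snd h ?_ | refine AmF.pair h ?_ ?_ | (refine AmF.const h _ ?_; assumption) | refine AmF.prod h ?_ ?_)) (by repeat' (first | exact AmF.id h | exact AmF.fst h | exact AmF.snd h | refine AF.fst h ?_ | refine AF.snd h ?_ | refine AmF.pair h ?_ ?_ | (refine AmF.const h _ ?_; assumption) | refine AmF.prod h ?_ ?_)) (by repeat' (first | exact AmF.id h | exact AmF.fst h | exact AmF.snd h | refine AF.fst h ?_ | refine AF.snd h ?_ | refine AmF.pair h ?_ ?_ | (refine AmF.const h _ ?_; assumption) | refine AmF.prod h ?_ ?_)))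
  exact h0.comp h (AmF.prod h (AmF.prod h hσ hτ) hp)

theorem FM_mono (hpo : IsPo P le) {σ τ p q : ZFSet.{0}} (hqp : ZFSet.pair q p ∈ le)
    (hF : FM P le σ τ p) : FM P le σ τ q := by
  obtain ⟨π, s, h1, h2, h3, h4⟩ := hF
  exact ⟨π, s, h1, hpo.trans _ _ _ hqp h2, (hpo.fld _ _ hqp).1, FE_mono hpo hqp h4⟩

theorem FM_truth (h : IsInner M) (hG : IsGen M P le G) (hP : P ∈ M) (hle : le ∈ M)
    (hpo : IsPo P le) {σ τ : ZFSet.{0}} (hσ : σ ∈ M) (hτ : τ ∈ M) :
    (val G σ ∈ val G τ ↔ ∃ p ∈ G, FM P le σ τ p) := by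
  rw [mem_val]
  constructor
  · rintro ⟨π, s, hs, h1, h2⟩
    have hπ : π ∈ M := ((pm h).1 (h.trans τ hτ _ h1)).1
    obtain ⟨p, hp, h3⟩ := (FE_truth h hG hP hle hpo σ hσ π hπ).1 h2.symm
    obtain ⟨q, hq, h4, h5⟩ := hG.dir p hp s hs
    exact ⟨q, hq, π, s, h1, h5, hG.sub q hq, FE_mono hpo h4 h3⟩
  · rintro ⟨p, hp, π, s, h1, h2, _, h3⟩
    have hπ : π ∈ M := ((pm h).1 (h.trans τ hτ _ h1)).1
    exact ⟨π, s, hG.up p hp s (hpo.fld _ _ h2).2 h2, h1,
      ((FE_truth h hG hP hle hpo σ hσ π hπ).2 ⟨p, hp, h3⟩).symm⟩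

/-! ### forceable relations -/

/-- A relation between lists of sets is forceable. -/
def Fo (M : Set ZFSet.{0}) (P le : ZFSet.{0}) (G : Set ZFSet.{0})
    (R : List ZFSet.{0} → Prop) : Prop :=
  ∃ F : ZFSet.{0} → List ZFSet.{0} → Prop,
    Am M (fun q : ZFSet.{0} × List ZFSet.{0} => F q.1 q.2) ∧
    (∀ p q l, ZFSet.pair q p ∈ le → F p l → F q l) ∧
    ∀ l : List ZFSet.{0}, (∀ σ ∈ l, σ ∈ M) → (R (l.map (val G)) ↔ ∃ p ∈ G, F p l)

theorem Fo.and (hG : IsGen M P le G) {R S : List ZFSet.{0} → Prop} (h : IsInner M)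
    (hR : Fo M P le G R) (hS : Fo M P le G S) : Fo M P le G (fun l => R l ∧ S l) := by
  obtain ⟨F, h1, h2, h3⟩ := hR
  obtain ⟨F', h1', h2', h3'⟩ := hS
  refine ⟨fun p l => F p l ∧ F' p l, Am.and h h1 h1', fun p q l hqp hF =>
    ⟨h2 p q l hqp hF.1, h2' p q l hqp hF.2⟩, fun l hl => ?_⟩
  constructor
  · rintro ⟨hr, hs⟩
    obtain ⟨p, hp, hFp⟩ := (h3 l hl).1 hr
    obtain ⟨q, hq, hFq⟩ := (h3' l hl).1 hs
    obtain ⟨r, hr, hrp, hrq⟩ := hG.dir p hp q hq
    exact ⟨r, hr, h2 p r l hrp hFp, h2' q r l hrq hFq⟩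
  · rintro ⟨p, hp, hF, hF'⟩
    exact ⟨(h3 l hl).2 ⟨p, hp, hF⟩, (h3' l hl).2 ⟨p, hp, hF'⟩⟩

theorem Fo.not (hG : IsGen M P le G) (hP : P ∈ M) (hle : le ∈ M) (hpo : IsPo P le)
    {R : List ZFSet.{0} → Prop} (h : IsInner M)
    (hR : Fo M P le G R) : Fo M P le G (fun l => ¬ R l) := by
  obtain ⟨F, h1, h2, h3⟩ := hR
  have hN : Am M (fun q : ZFSet.{0} × List ZFSet.{0} => ∀ r ∈ P, (ZFSet.pair r q.1 ∈ le →
      ¬ F r q.2)) := by
    refine Am.ball h (AmF.const h P hP) (R := fun (q : ZFSet.{0} × List ZFSet.{0}) r =>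
      (ZFSet.pair r q.1 ∈ le → ¬ F r q.2)) ?_
    exact Am.imp h (Am.mem h (by repeat' (first | exact AmF.id h | exact AmF.fst h | exact AmF.snd h | refine AF.fst h ?_ | refine AF.snd h ?_ | refine AmF.pair h ?_ ?_ | (refine AmF.const h _ ?_; assumption) | refine AmF.prod h ?_ ?_)) (by repeat' (first | exact AmF.id h | exact AmF.fst h | exact AmF.snd h | refine AF.fst h ?_ | refine AF.snd h ?_ | refine AmF.pair h ?_ ?_ | (refine AmF.const h _ ?_; assumption) | refine AmF.prod h ?_ ?_))) (Am.not h (h1.comp h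
      (f := fun q : (ZFSet.{0} × List ZFSet.{0}) × ZFSet.{0} => (q.2, q.1.2)) (by repeat' (first | exact AmF.id h | exact AmF.fst h | exact AmF.snd h | refine AF.fst h ?_ | refine AF.snd h ?_ | refine AmF.pair h ?_ ?_ | (refine AmF.const h _ ?_; assumption) | refine AmF.prod h ?_ ?_))))
  refine ⟨fun p l => ∀ r ∈ P, (ZFSet.pair r p ∈ le → ¬ F r l), hN, ?_, ?_⟩
  · intro p q l hqp hF r hr hrq
    exact hF r hr (hpo.trans _ _ _ hrq hqp)
  · intro l hl
    have hlM : Cod.code l ∈ M := (code_mem_list h).2 hl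
    constructor
    · intro hnR
      obtain ⟨p0, hp0⟩ := hG.nonempty hP hpo
      have hD : Am M (fun p : ZFSet.{0} => F p l ∨ ∀ r ∈ P, (ZFSet.pair r p ∈ le → ¬ F r l)) := by
        have e0 : AmF M (fun _ : ZFSet.{0} => l) := AmF.const h l hlM
        have e : AmF M (fun p : ZFSet.{0} => (p, l)) :=
          AmF.prod h (f := fun p : ZFSet.{0} => p) (g := fun _ : ZFSet.{0} => l) (AmF.id h) e0
        have e1 : Am M (fun p : ZFSet.{0} => F p l) :=
          Am.comp h (R := fun q : ZFSet.{0} × List ZFSet.{0} => F q.1 q.2)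
            (f := fun p : ZFSet.{0} => (p, l)) h1 e
        have e2 : Am M (fun p : ZFSet.{0} => ∀ r ∈ P, (ZFSet.pair r p ∈ le → ¬ F r l)) :=
          Am.comp h (R := fun q : ZFSet.{0} × List ZFSet.{0} => ∀ r ∈ P,
            (ZFSet.pair r q.1 ∈ le → ¬ F r q.2)) (f := fun p : ZFSet.{0} => (p, l)) hN e
        exact Am.or h e1 e2
      obtain ⟨p, hp, _, hp1⟩ := IsGen.meets_below h hG hP hle hpo hD hp0 (by
        intro q hq _
        by_cases hc : ∃ r ∈ P, ZFSet.pair r q ∈ le ∧ F r l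
        · obtain ⟨r, hr, hrq, hF⟩ := hc
          exact ⟨r, hr, hrq, Or.inl hF⟩
        · push Not at hc
          exact ⟨q, hq, hpo.refl q hq, Or.inr hc⟩)
      rcases hp1 with hp1 | hp1
      · exact absurd ((h3 l hl).2 ⟨p, hp, hp1⟩) hnR
      · exact ⟨p, hp, hp1⟩
    · rintro ⟨p, hp, hF⟩ hr
      obtain ⟨q, hq, hFq⟩ := (h3 l hl).1 hr
      obtain ⟨r, hr, hrp, hrq⟩ := hG.dir p hp q hq
      exact hF r (hG.sub r hr) hrp (h2 q r l hrq hFq)

theorem Fo.exT {t : ZFSet.{0}} (ht : t ∈ M) {R : List ZFSet.{0} → Prop} (h : IsInner M)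
    (hR : Fo M P le G R) : Fo M P le G (fun l => ∃ τ ∈ t, R (val G τ :: l)) := by
  obtain ⟨F, h1, h2, h3⟩ := hR
  refine ⟨fun p l => ∃ τ ∈ t, F p (τ :: l), ?_, ?_, ?_⟩
  · refine Am.bex h (AmF.const h t ht) (R := fun (q : ZFSet.{0} × List ZFSet.{0}) τ =>
      F q.1 (τ :: q.2)) ?_
    exact h1.comp h (f := fun q : (ZFSet.{0} × List ZFSet.{0}) × ZFSet.{0} =>
      (q.1.1, q.2 :: q.1.2)) (AmF.prod h (by repeat' (first | exact AmF.id h | exact AmF.fst h | exact AmF.snd h | refine AF.fst h ?_ | refine AF.snd h ?_ | refine AmF.pair h ?_ ?_ | (refine AmF.const h _ ?_; assumption) | refine AmF.prod h ?_ ?_)) (AmF.lcons h (by repeat' (first | exact AmF.id h | exact AmF.fst h | exact AmF.snd h | refine AF.fst h ?_ | refine AF.snd h ?_ | refine AmF.pair h ?_ ?_ | (refine AmF.const h _ ?_; assumption) | refine AmF.prod h ?_ ?_)) (by repeat' (first | exact AmF.id h | exact AmF.fst h | exact AmF.snd h | refine AF.fst h ?_ | refine AF.snd h ?_ | refine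 AmF.pair h ?_ ?_ | (refine AmF.const h _ ?_; assumption) | refine AmF.prod h ?_ ?_))))
  · rintro p q l hqp ⟨τ, hτ, hF⟩
    exact ⟨τ, hτ, h2 p q _ hqp hF⟩
  · intro l hl
    have hl' : ∀ τ ∈ t, ∀ σ ∈ τ :: l, σ ∈ M := by
      intro τ hτ σ hσ
      rcases List.mem_cons.1 hσ with rfl | hσ
      · exact h.trans t ht _ hτ
      · exact hl σ hσ
    constructor
    · rintro ⟨τ, hτ, hr⟩
      obtain ⟨p, hp, hF⟩ := (h3 (τ :: l) (hl' τ hτ)).1 hr
      exact ⟨p, hp, τ, hτ, hF⟩
    · rintro ⟨p, hp, τ, hτ, hF⟩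
      exact ⟨τ, hτ, (h3 (τ :: l) (hl' τ hτ)).2 ⟨p, hp, hF⟩⟩

theorem val_empty : val G ∅ = ∅ := by
  ext x
  rw [mem_val]
  simp

theorem map_val_getD (l : List ZFSet.{0}) (i : ℕ) :
    (l.map (val G)).getD i ∅ = val G (l.getD i ∅) := by
  induction l generalizing i with
  | nil => simp [val_empty]
  | cons a l ih =>
    cases i with
    | zero => simp
    | succ i => simpa using ih i

theorem Fo.mem (h : IsInner M) (hG : IsGen M P le G) (hP : P ∈ M) (hle : le ∈ M)
    (hpo : IsPo P le) (i j : ℕ) : Fo M P le G (fun l => l.getD i ∅ ∈ l.getD j ∅) := by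
  refine ⟨fun p l => FM P le (l.getD i ∅) (l.getD j ∅) p, ?_, ?_, ?_⟩
  · refine FM_am h hP hle ?_ ?_ (by repeat' (first | exact AmF.id h | exact AmF.fst h | exact AmF.snd h | refine AF.fst h ?_ | refine AF.snd h ?_ | refine AmF.pair h ?_ ?_ | (refine AmF.const h _ ?_; assumption) | refine AmF.prod h ?_ ?_))
    · exact AmF.getD h (by repeat' (first | exact AmF.id h | exact AmF.fst h | exact AmF.snd h | refine AF.fst h ?_ | refine AF.snd h ?_ | refine AmF.pair h ?_ ?_ | (refine AmF.const h _ ?_; assumption) | refine AmF.prod h ?_ ?_)) (AmF.const h i (AbsCod.mem h i)) (AmF.const h ∅ h.empty_mem)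
    · exact AmF.getD h (by repeat' (first | exact AmF.id h | exact AmF.fst h | exact AmF.snd h | refine AF.fst h ?_ | refine AF.snd h ?_ | refine AmF.pair h ?_ ?_ | (refine AmF.const h _ ?_; assumption) | refine AmF.prod h ?_ ?_)) (AmF.const h j (AbsCod.mem h j)) (AmF.const h ∅ h.empty_mem)
  · intro p q l hqp hF
    exact FM_mono hpo hqp hF
  · intro l hl
    have hg : ∀ i : ℕ, l.getD i ∅ ∈ M := by
      intro i
      exact (AmF.getD h (AmF.id h) (AmF.const h i (AbsCod.mem h i))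
        (AmF.const h (∅ : ZFSet.{0}) h.empty_mem)).mem l ((code_mem_list h).2 hl)
    show ((l.map (val G)).getD i ∅ ∈ (l.map (val G)).getD j ∅) ↔
      ∃ p ∈ G, FM P le (l.getD i ∅) (l.getD j ∅) p
    rw [map_val_getD, map_val_getD]
    exact FM_truth h hG hP hle hpo (hg i) (hg j)

theorem Fo.eq (h : IsInner M) (hG : IsGen M P le G) (hP : P ∈ M) (hle : le ∈ M)
    (hpo : IsPo P le) (i j : ℕ) : Fo M P le G (fun l => l.getD i ∅ = l.getD j ∅) := by
  refine ⟨fun p l => p ∈ P ∧ FE P le (l.getD i ∅) (l.getD j ∅) p, ?_, ?_, ?_⟩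
  · refine FE_am h hP hle ?_ ?_ (by repeat' (first | exact AmF.id h | exact AmF.fst h | exact AmF.snd h | refine AF.fst h ?_ | refine AF.snd h ?_ | refine AmF.pair h ?_ ?_ | (refine AmF.const h _ ?_; assumption) | refine AmF.prod h ?_ ?_))
    · exact AmF.getD h (by repeat' (first | exact AmF.id h | exact AmF.fst h | exact AmF.snd h | refine AF.fst h ?_ | refine AF.snd h ?_ | refine AmF.pair h ?_ ?_ | (refine AmF.const h _ ?_; assumption) | refine AmF.prod h ?_ ?_)) (AmF.const h i (AbsCod.mem h i)) (AmF.const h ∅ h.empty_mem)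
    · exact AmF.getD h (by repeat' (first | exact AmF.id h | exact AmF.fst h | exact AmF.snd h | refine AF.fst h ?_ | refine AF.snd h ?_ | refine AmF.pair h ?_ ?_ | (refine AmF.const h _ ?_; assumption) | refine AmF.prod h ?_ ?_)) (AmF.const h j (AbsCod.mem h j)) (AmF.const h ∅ h.empty_mem)
  · intro p q l hqp hF
    exact ⟨(hpo.fld _ _ hqp).1, FE_mono hpo hqp hF.2⟩
  · intro l hl
    have hg : ∀ i : ℕ, l.getD i ∅ ∈ M := by
      intro i
      exact (AmF.getD h (AmF.id h) (AmF.const h i (AbsCod.mem h i))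
        (AmF.const h (∅ : ZFSet.{0}) h.empty_mem)).mem l ((code_mem_list h).2 hl)
    show ((l.map (val G)).getD i ∅ = (l.map (val G)).getD j ∅) ↔
      ∃ p ∈ G, (p ∈ P ∧ FE P le (l.getD i ∅) (l.getD j ∅) p)
    rw [map_val_getD, map_val_getD, FE_truth h hG hP hle hpo _ (hg i) _ (hg j)]
    constructor
    · rintro ⟨p, hp, hF⟩
      exact ⟨p, hp, hG.sub p hp, hF⟩
    · rintro ⟨p, hp, _, hF⟩
      exact ⟨p, hp, hF⟩

end Pool.Agent.Helper33.CL
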